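import Pool.Agent.Helper499.SA.Defs

set_option autoImplicit false

namespace Pool.Agent.Helper499.SA

open Set Filter Topology

variable {X : Type} [MetricSpace X]


theorem em_circle_ind : IsInducing (fun z : Circle => (z : ℂ)) := ⟨rfl⟩

/-- normalisation of a complex valued function -/
noncomputable def emN (G : X → ℂ) (x : X) : Circle :=
  open scoped Classical in
  if h : ‖G x / (‖G x‖ : ℂ)‖ = 1 then ⟨G x / (‖G x‖ : ℂ), mem_sphere_zero_iff_norm.2 h⟩ else 1

omit [MetricSpace X] in
theorem emN_coe (G : X → ℂ) (x : X) (hx : G x ≠ 0) : (emN G x : ℂ) = G x / (‖G x‖ : ℂ) := by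
  have h : ‖G x / (‖G x‖ : ℂ)‖ = 1 := by
    rw [norm_div, Complex.norm_real, norm_norm, div_self (norm_ne_zero_iff.2 hx)]
  unfold emN
  rw [dif_pos h]

theorem em_cont (G : X → ℂ) (s : Set X) (hG : ContinuousOn G s) (h0 : ∀ x ∈ s, G x ≠ 0) :
    ContinuousOn (emN G) s := by
  rw [em_circle_ind.continuousOn_iff]
  have h1 : ContinuousOn (fun x => G x / (‖G x‖ : ℂ)) s := by
    apply hG.div
    · exact Complex.continuous_ofReal.comp_continuousOn hG.norm
    · intro x hx
      exact_mod_cast norm_ne_zero_iff.2 (h0 x hx)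
  refine h1.congr fun x hx => ?_
  exact emN_coe G x (h0 x hx)


theorem exists_mem [CompactSpace X] (M C : Set X) (F : X → Circle) (hM : IsClosed M)
    (hC : IsClosed C) (hCM : C ⊆ M) (hF : ContinuousOn F C) (hn : ¬ Ext F C M) :
    ∃ M' ⊆ M, Mem M' C F := by
  obtain ⟨m, hmM, hmin⟩ := zorn_superset_nonempty
    {M₁ : Set X | IsClosed M₁ ∧ C ⊆ M₁ ∧ M₁ ⊆ M ∧ ¬ Ext F C M₁} (by
      intro c hc hch hne
      refine ⟨⋂₀ c, ⟨?_, ?_, ?_, ?_⟩, fun s hs => sInter_subset_of_mem hs⟩
      · exact isClosed_sInter fun s hs => (hc hs).1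
      · exact subset_sInter fun s hs => (hc hs).2.1
      · obtain ⟨s, hs⟩ := hne
        exact (sInter_subset_of_mem hs).trans (hc hs).2.2.1
      · rintro ⟨G, hG, hGF⟩
        have hcl : IsClosed (⋂₀ c) := isClosed_sInter fun s hs => (hc hs).1
        have hCc : C ⊆ ⋂₀ c := subset_sInter fun s hs => (hc hs).2.1
        let g0 : C(↥(⋂₀ c), ℂ) := ⟨fun x => (G x : ℂ), by
          have := continuousOn_iff_continuous_domRestrict.1 hG
          exact em_circle_ind.continuous.comp this⟩
        obtain ⟨G1, hG1⟩ := ContinuousMap.exists_restrict_eq hcl g0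
        have hG1' : ∀ x ∈ ⋂₀ c, G1 x = (G x : ℂ) := by
          intro x hx
          have := congrArg (fun f : C(↥(⋂₀ c), ℂ) => f ⟨x, hx⟩) hG1
          exact this
        have hne' : Nonempty c := hne.to_subtype
        have hW : IsOpen {x | 1 / 2 < ‖G1 x‖} := isOpen_lt continuous_const G1.continuous.norm
        obtain ⟨s, hs⟩ := exists_subset_nhds_of_isCompact' (V := fun i : c => (i : Set X))
          (U := {x | 1 / 2 < ‖G1 x‖}) (by
            intro i j
            rcases hch.total i.2 j.2 with h | h
            · exact ⟨i, subset_rfl, h⟩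
            · exact ⟨j, h, subset_rfl⟩)
          (fun i => (hc i.2).1.isCompact) (fun i => (hc i.2).1) (by
            intro x hx
            apply hW.mem_nhds
            have hx' : x ∈ ⋂₀ c := by
              rw [sInter_eq_iInter]
              exact hx
            show 1 / 2 < ‖G1 x‖
            rw [hG1' x hx', Circle.norm_coe]
            norm_num)
        apply (hc s.2).2.2.2
        refine ⟨emN (fun x => G1 x), ?_, ?_⟩
        · apply em_cont _ _ G1.continuous.continuousOn
          intro x hx h0
          have := hs hx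
          simp only [mem_ofPred_eq] at this
          rw [h0, norm_zero] at this
          norm_num at this
        · intro x hx
          apply Circle.coe_injective
          have h1 := hG1' x (hCc hx)
          have h2 : G1 x ≠ 0 := by rw [h1]; exact Circle.coe_ne_zero _
          rw [emN_coe _ x h2, h1, Circle.norm_coe, hGF hx]
          simp) M ⟨hM, hCM, subset_rfl, hn⟩
  refine ⟨m, hmM, hmin.1.1, hC, hmin.1.2.1, hF, hmin.1.2.2.2, ?_⟩
  intro M₁ h1 h2 h3 h4
  by_contra h5
  exact h4 (Subset.antisymm h3 (hmin.2 ⟨h1, h2, h3.trans hmM, h5⟩ h3))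

end Pool.Agent.Helper499.SA
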