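import Pool.Agent.Helper499.SA.Defs

set_option autoImplicit false

namespace Pool.Agent.Helper499.SA

open Set Filter Topology

variable {X : Type} [MetricSpace X]


theorem lar_cont_coe {q : ℝ → Circle} {T : Set ℝ} (hq : ContinuousOn q T) :
    ContinuousOn (fun t => (q t : ℂ)) T :=
  continuous_subtype_val.comp_continuousOn hq

theorem lar_step (T : Set ℝ) (hT : IsClosed T) (q : ℝ → Circle) (hq : ContinuousOn q T)
    (s s' : ℝ) (hss : s ≤ s')
    (hclose : ∀ t ∈ T, ∀ t' ∈ T, t ∈ Icc s s' → t' ∈ Icc s s' → ‖(q t : ℂ) - q t'‖ < 1)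
    (h : ∃ θ : ℝ → ℝ, ContinuousOn θ (T ∩ Iic s) ∧ ∀ t ∈ T ∩ Iic s, q t = Circle.exp (θ t)) :
    ∃ θ : ℝ → ℝ, ContinuousOn θ (T ∩ Iic s') ∧ ∀ t ∈ T ∩ Iic s', q t = Circle.exp (θ t) := by
  obtain ⟨θ, hθ, hθe⟩ := h
  by_cases hne : (T ∩ Icc s s').Nonempty
  swap
  · have hsub : T ∩ Iic s' ⊆ T ∩ Iic s := by
      rintro t ⟨h1, h2⟩
      refine ⟨h1, ?_⟩
      by_contra hcon
      exact hne ⟨t, h1, (not_le.mp hcon).le, h2⟩
    exact ⟨θ, hθ.mono hsub, fun t ht => hθe t (hsub ht)⟩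
  obtain ⟨t0, ht0, c, hc, hs⟩ : ∃ t0 ∈ T ∩ Icc s s', ∃ c : ℝ, Circle.exp c = q t0 ∧
      (s ∈ T → t0 = s ∧ c = θ s) := by
    by_cases hsT : s ∈ T
    · exact ⟨s, ⟨hsT, left_mem_Icc.2 hss⟩, θ s, (hθe s ⟨hsT, Set.mem_Iic.2 le_rfl⟩).symm,
        fun _ => ⟨rfl, rfl⟩⟩
    · obtain ⟨t0, ht0⟩ := hne
      exact ⟨t0, ht0, Complex.arg (q t0), Circle.exp_arg _, fun h => absurd h hsT⟩
  obtain ⟨g, hgdef⟩ : ∃ g : ℝ → ℝ, g = fun t => c + Complex.arg ((q t / q t0 : Circle) : ℂ) :=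
    ⟨_, rfl⟩
  have hge : ∀ t, q t = Circle.exp (g t) := by
    intro t
    rw [hgdef]
    beta_reduce
    rw [Circle.exp_add, hc, Circle.exp_arg, mul_div_cancel]
  have hgc : ContinuousOn g (T ∩ Icc s s') := by
    rw [hgdef]
    refine continuousOn_const.add ?_
    intro t ht
    have hslit : ((q t / q t0 : Circle) : ℂ) ∈ Complex.slitPlane := by
      have h1 : ‖((q t / q t0 : Circle) : ℂ) - 1‖ < 1 := by
        rw [Circle.coe_div]
        have h2 : (q t : ℂ) / (q t0 : ℂ) - 1 = ((q t : ℂ) - q t0) / (q t0 : ℂ) := by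
          rw [sub_div, div_self (Circle.coe_ne_zero _)]
        rw [h2, norm_div, Circle.norm_coe, div_one]
        exact hclose t ht.1 t0 ht0.1 ht.2 ht0.2
      have h3 := Complex.mem_slitPlane_of_norm_lt_one h1
      rwa [add_sub_cancel] at h3
    refine ContinuousAt.comp_continuousWithinAt
      (f := fun t => ((q t / q t0 : Circle) : ℂ)) (g := Complex.arg)
      (Complex.continuousAt_arg hslit) ?_
    have h4 : ContinuousWithinAt (fun t => (q t : ℂ) / (q t0 : ℂ)) (T ∩ Icc s s') t :=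
      (((lar_cont_coe hq).mono inter_subset_left).div_const _) t ht
    refine h4.congr (fun y _ => Circle.coe_div _ _) (Circle.coe_div _ _)
  refine ⟨fun t => if t ≤ s then θ t else g t, ?_, ?_⟩
  · have hun : T ∩ Iic s' ⊆ (T ∩ Iic s) ∪ (T ∩ Icc s s') := by
      rintro t ⟨h1, h2⟩
      rcases le_total t s with h3 | h3
      · exact Or.inl ⟨h1, h3⟩
      · exact Or.inr ⟨h1, h3, h2⟩
    refine ContinuousOn.mono ?_ hun
    refine ContinuousOn.union_of_isClosed ?_ ?_ (hT.inter isClosed_Iic) (hT.inter isClosed_Icc)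
    · refine hθ.congr fun t ht => ?_
      beta_reduce
      rw [if_pos (show t ≤ s from ht.2)]
    · refine hgc.congr fun t ht => ?_
      beta_reduce
      by_cases hts : t ≤ s
      · have h1 : t = s := le_antisymm hts ht.2.1
        rw [if_pos hts, h1]
        obtain ⟨h2, h3⟩ := hs (h1 ▸ ht.1)
        rw [hgdef]
        beta_reduce
        rw [h2, div_self', h3]
        simp
      · rw [if_neg hts]
  · intro t ht
    beta_reduce
    split_ifs with h1
    · exact hθe t ⟨ht.1, h1⟩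
    · exact hge t

theorem lar_lift (T : Set ℝ) (hT : IsCompact T) (hT1 : T ⊆ Icc 0 1) (q : ℝ → Circle)
    (hq : ContinuousOn q T) :
    ∃ θ : ℝ → ℝ, ContinuousOn θ T ∧ ∀ t ∈ T, q t = Circle.exp (θ t) := by
  have huc := hT.uniformContinuousOn_of_continuous (lar_cont_coe hq)
  rw [Metric.uniformContinuousOn_iff] at huc
  obtain ⟨δ, hδ, hδ2⟩ := huc 1 one_pos
  have hind : ∀ j : ℕ, ∃ θ : ℝ → ℝ, ContinuousOn θ (T ∩ Iic (-1 + j * (δ / 2))) ∧
      ∀ t ∈ T ∩ Iic (-1 + j * (δ / 2)), q t = Circle.exp (θ t) := by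
    intro j
    induction j with
    | zero =>
      have he : T ∩ Iic (-1 + ((0 : ℕ) : ℝ) * (δ / 2)) = ∅ := by
        rw [Set.eq_empty_iff_forall_notMem]
        rintro t ⟨h1, h2⟩
        have h3 := (hT1 h1).1
        have h4 : t ≤ -1 + ((0 : ℕ) : ℝ) * (δ / 2) := h2
        rw [Nat.cast_zero, zero_mul] at h4
        linarith
      rw [he]
      exact ⟨fun _ => 0, continuousOn_empty _, fun t ht => absurd ht (Set.notMem_empty t)⟩
    | succ j ih =>
      refine lar_step T hT.isClosed q hq (-1 + j * (δ / 2)) _ (by push_cast; nlinarith) ?_ ih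
      intro t ht t' ht' h1 h2
      have h3 := hδ2 t ht t' ht' (by
        rw [Real.dist_eq, abs_lt]
        push_cast at h1 h2
        constructor <;> nlinarith [h1.1, h1.2, h2.1, h2.2])
      rwa [dist_eq_norm] at h3
  obtain ⟨j, hj⟩ := exists_nat_gt (2 / (δ / 2))
  obtain ⟨θ, h1, h2⟩ := hind j
  have hsub : T ⊆ T ∩ Iic (-1 + j * (δ / 2)) := by
    intro t ht
    refine ⟨ht, ?_⟩
    have h3 := (hT1 ht).2
    rw [div_lt_iff₀ (by positivity)] at hj
    show t ≤ -1 + j * (δ / 2)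
    linarith
  exact ⟨θ, h1.mono hsub, fun t ht => h2 t (hsub ht)⟩

theorem lift_arc (a : ℝ → X) (ha : ArcMap a) (K : Set X) (hK : IsClosed K)
    (hKa : K ⊆ a '' Icc 0 1) (r : X → Circle) (hr : ContinuousOn r K) :
    ∃ θ : X → ℝ, ContinuousOn θ K ∧ ∀ x ∈ K, r x = Circle.exp (θ x) := by
  obtain ⟨T, hTdef⟩ : ∃ T : Set ℝ, T = Icc 0 1 ∩ a ⁻¹' K := ⟨_, rfl⟩
  have hTc : IsClosed T := by
    rw [hTdef]
    exact ha.cont.preimage_isClosed_of_isClosed isClosed_Icc hK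
  have hT1 : T ⊆ Icc 0 1 := by rw [hTdef]; exact inter_subset_left
  have hT : IsCompact T := isCompact_Icc.of_isClosed_subset hTc hT1
  have hTK : ∀ t ∈ T, a t ∈ K := by
    intro t ht
    rw [hTdef] at ht
    exact ht.2
  have hq : ContinuousOn (fun t => r (a t)) T := hr.comp (ha.cont.mono hT1) hTK
  obtain ⟨θ, hθ, hθe⟩ := lar_lift T hT hT1 (fun t => r (a t)) hq
  have hb : ∀ x, ∃ s, x ∈ K → s ∈ Icc (0:ℝ) 1 ∧ a s = x := by
    intro x
    by_cases hx : x ∈ K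
    · obtain ⟨s, hs, hsx⟩ := hKa hx
      exact ⟨s, fun _ => ⟨hs, hsx⟩⟩
    · exact ⟨0, fun h => absurd h hx⟩
  choose b hb using hb
  have hbT : ∀ x ∈ K, b x ∈ T := by
    intro x hx
    rw [hTdef]
    refine ⟨(hb x hx).1, ?_⟩
    show a (b x) ∈ K
    rw [(hb x hx).2]; exact hx
  refine ⟨fun x => θ (b x), ?_, ?_⟩
  · rw [continuousOn_iff_isClosed]
    intro t ht
    refine ⟨a '' (T ∩ θ ⁻¹' t), ?_, ?_⟩
    · have h1 : IsClosed (T ∩ θ ⁻¹' t) := hθ.preimage_isClosed_of_isClosed hTc ht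
      have h2 : IsCompact (T ∩ θ ⁻¹' t) := hT.of_isClosed_subset h1 inter_subset_left
      exact (h2.image_of_continuousOn (ha.cont.mono (inter_subset_left.trans hT1))).isClosed
    · ext x
      constructor
      · rintro ⟨h1, h2⟩
        exact ⟨⟨b x, ⟨hbT x h2, h1⟩, (hb x h2).2⟩, h2⟩
      · rintro ⟨⟨s, ⟨hs1, hs2⟩, rfl⟩, h2⟩
        refine ⟨?_, h2⟩
        have h3 : b (a s) = s := ha.inj (hb _ h2).1 (hT1 hs1) (hb _ h2).2
        show θ (b (a s)) ∈ t
        rw [h3]; exact hs2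
  · intro x hx
    have h1 := hθe (b x) (hbT x hx)
    beta_reduce at h1 ⊢
    rw [(hb x hx).2] at h1
    exact h1

end Pool.Agent.Helper499.SA
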