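import Pool.Agent.Helper499.SA.Defs
import Pool.Agent.Helper499.SA.A02

set_option autoImplicit false

namespace Pool.Agent.Helper499.SA

open Set Filter Topology

variable {X : Type} [MetricSpace X]




theorem glue (a : ℝ → X) (ha : ArcMap a) (A U V I R : Set X) (b : X) (hU : IsOpen U)
    (hV : IsOpen V) (hd : Disjoint U V) (hc : U ∪ V = Aᶜ) (hA : A = I ∪ R) (hI : IsClosed I)
    (hR : IsClosed R) (hIa : I ⊆ a '' Icc 0 1) (hIR : I ∩ R ⊆ {b}) (M C : Set X)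
    (F : X → Circle) (hM : IsClosed M) (hC : IsClosed C) (hCM : C ⊆ M) (hRC : R ∩ M ⊆ C)
    (hIC : I ∩ C ⊆ {b}) (h1 : Ext F (C \ V) (M \ V)) (h2 : Ext F (C \ U) (M \ U)) :
    Ext F C M := by
  classical
  obtain ⟨f1, hf1c, hf1⟩ := h1
  obtain ⟨f2, hf2c, hf2⟩ := h2
  have hAUV : ∀ x, x ∈ A ↔ x ∉ U ∧ x ∉ V := by
    intro x
    have h := Set.ext_iff.1 hc x
    simp only [Set.mem_union, Set.mem_compl_iff] at h
    tauto
  have hK : IsClosed (I ∩ M) := hI.inter hM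
  have hr : ContinuousOn (fun x => f1 x / f2 x) (I ∩ M) := by
    apply ContinuousOn.div'
    · refine hf1c.mono ?_
      rintro x ⟨hxI, hxM⟩
      have hxA : x ∈ A := by rw [hA]; exact Or.inl hxI
      exact ⟨hxM, ((hAUV x).1 hxA).2⟩
    · refine hf2c.mono ?_
      rintro x ⟨hxI, hxM⟩
      have hxA : x ∈ A := by rw [hA]; exact Or.inl hxI
      exact ⟨hxM, ((hAUV x).1 hxA).1⟩
  obtain ⟨θ₀, hθ₀c, hθ₀⟩ := lift_arc a ha (I ∩ M) hK (fun x hx => hIa hx.1) _ hr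
  -- the normalised lift
  obtain ⟨θ, hθc, hθ, hθb⟩ : ∃ θ : X → ℝ, ContinuousOn θ (I ∩ M) ∧
      (∀ x ∈ I ∩ M, f1 x / f2 x = Circle.exp (θ x)) ∧ (b ∈ I ∩ C → θ b = 0) := by
    by_cases hb : b ∈ I ∩ C
    · have hbA : b ∈ A := by rw [hA]; exact Or.inl hb.1
      have hb1 : f1 b = F b := hf1 ⟨hb.2, ((hAUV b).1 hbA).2⟩
      have hb2 : f2 b = F b := hf2 ⟨hb.2, ((hAUV b).1 hbA).1⟩
      have hb3 := hθ₀ b ⟨hb.1, hCM hb.2⟩

      rw [hb1, hb2, div_self'] at hb3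
      refine ⟨fun x => θ₀ x - θ₀ b, hθ₀c.sub continuousOn_const, ?_, fun _ => sub_self _⟩
      intro x hx
      rw [Circle.exp_sub, ← hb3, div_one]
      exact hθ₀ x hx
    · exact ⟨θ₀, hθ₀c, hθ₀, fun h => absurd h hb⟩
  set Θ₁ : X → ℝ := fun x => if x ∈ C then 0 else θ x with hΘ₁
  have hΘ₁I : ∀ x ∈ I ∩ M, Θ₁ x = θ x := by
    intro x hx
    simp only [hΘ₁]
    split_ifs with hxC
    · have hxb : x = b := hIC ⟨hx.1, hxC⟩
      subst hxb
      exact (hθb ⟨hx.1, hxC⟩).symm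
    · rfl
  have hΘ₁C : ∀ x ∈ C, Θ₁ x = 0 := by
    intro x hx
    simp only [hΘ₁, if_pos hx]
  have hΘ₁c : ContinuousOn Θ₁ ((I ∩ M) ∪ C) := by
    apply ContinuousOn.union_of_isClosed
    · exact hθc.congr hΘ₁I
    · exact (continuousOn_const (c := (0 : ℝ))).congr hΘ₁C
    · exact hK
    · exact hC
  obtain ⟨g, hg⟩ := ContinuousMap.exists_restrict_eq (hK.union hC)
    (⟨Set.domRestrict ((I ∩ M) ∪ C) Θ₁, continuousOn_iff_continuous_domRestrict.1 hΘ₁c⟩ :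
      C(((I ∩ M) ∪ C : Set X), ℝ))
  have hgE : ∀ x ∈ (I ∩ M) ∪ C, g x = Θ₁ x := by
    intro x hx
    have := congrArg (fun w : C(((I ∩ M) ∪ C : Set X), ℝ) => w ⟨x, hx⟩) hg
    exact this
  have hMU : IsClosed (M \ U) := hM.sdiff hU
  have hMV : IsClosed (M \ V) := hM.sdiff hV
  set H : X → Circle := fun x => if x ∈ V then f2 x * Circle.exp (g x) else f1 x with hH
  have hH1 : ∀ x ∈ M \ V, H x = f1 x := by
    intro x hx
    simp only [hH, if_neg hx.2]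
  have hH2 : ∀ x ∈ M \ U, H x = f2 x * Circle.exp (g x) := by
    intro x hx
    simp only [hH]
    split_ifs with hxV
    · rfl
    · have hxA : x ∈ A := (hAUV x).2 ⟨hx.2, hxV⟩
      have hxA' := hxA
      rw [hA] at hxA'
      rcases hxA' with hxI | hxR
      · have h3 := hθ x ⟨hxI, hx.1⟩
        rw [hgE x (Or.inl ⟨hxI, hx.1⟩), hΘ₁I x ⟨hxI, hx.1⟩, ← h3]
        rw [mul_div_cancel]
      · have hxC : x ∈ C := hRC ⟨hxR, hx.1⟩
        rw [hgE x (Or.inr hxC), hΘ₁C x hxC, Circle.exp_zero, mul_one,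
          hf1 ⟨hxC, hxV⟩, hf2 ⟨hxC, hx.2⟩]
  refine ⟨H, ?_, ?_⟩
  · have hMeq : M = (M \ V) ∪ (M \ U) := by
      ext x
      constructor
      · intro hx
        by_cases hxV : x ∈ V
        · right
          exact ⟨hx, fun hxU => Set.disjoint_left.1 hd hxU hxV⟩
        · left
          exact ⟨hx, hxV⟩
      · rintro (hx | hx)
        · exact hx.1
        · exact hx.1
    rw [hMeq]
    apply ContinuousOn.union_of_isClosed
    · exact hf1c.congr hH1
    · refine ContinuousOn.congr ?_ hH2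
      exact hf2c.mul (Circle.exp.continuous.comp g.continuous).continuousOn
    · exact hMV
    · exact hMU
  · intro x hx
    simp only [hH]
    split_ifs with hxV
    · rw [hgE x (Or.inr hx), hΘ₁C x hx, Circle.exp_zero, mul_one]
      exact hf2 ⟨hx, fun hxU => Set.disjoint_left.1 hd hxU hxV⟩
    · exact hf1 ⟨hx, hxV⟩

end Pool.Agent.Helper499.SA
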