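import Pool.Agent.Helper499.SA.Defs

set_option autoImplicit false

namespace Pool.Agent.Helper499.SA

open Set Filter Topology

variable {X : Type} [MetricSpace X]


theorem ntrick (M C : Set X) (F : X → Circle) (hM : Mem M C F) (C₀ : Set X)
    (hC₀ : IsClosed C₀) (h1 : C ⊆ C₀) (h2 : C₀ ⊆ M) (w : X) (hw : w ∈ M) (hw' : w ∉ C₀)
    (ρ : ℝ) (hρ : 0 < ρ) :
    ∃ (F₀ : X → Circle) (O : Set X), IsOpen O ∧ w ∈ O ∧ O ⊆ Metric.ball w ρ ∧ Disjoint O C₀ ∧
      ContinuousOn F₀ (M \ O) ∧ EqOn F₀ F C ∧ ¬ Ext F₀ C₀ M := by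
  obtain ⟨ρ', hρ', hball⟩ := Metric.isOpen_iff.1 hC₀.isOpen_compl w hw'
  have hr : 0 < min ρ ρ' := lt_min hρ hρ'
  have hdis : Disjoint (Metric.ball w (min ρ ρ')) C₀ := by
    rw [Set.disjoint_left]
    intro x hx hx0
    exact hball (Metric.ball_subset_ball (min_le_right _ _) hx) hx0
  obtain ⟨G, hG, hGF⟩ := hM.min (M \ Metric.ball w (min ρ ρ'))
    (hM.clM.sdiff Metric.isOpen_ball)
    (fun x hx => ⟨hM.sub hx, fun hx' => Set.disjoint_left.1 hdis hx' (h1 hx)⟩)
    Set.diff_subset
    (fun h => by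
      have : w ∈ M \ Metric.ball w (min ρ ρ') := by rw [h]; exact hw
      exact this.2 (Metric.mem_ball_self hr))
  refine ⟨G, Metric.ball w (min ρ ρ'), Metric.isOpen_ball, Metric.mem_ball_self hr,
    Metric.ball_subset_ball (min_le_left _ _), hdis, hG, hGF, ?_⟩
  rintro ⟨H, hH, hHG⟩
  exact hM.non ⟨H, hH, fun x hx => (hHG (h1 hx)).trans (hGF hx)⟩

theorem clean (M C : Set X) (F : X → Circle) (hM : Mem M C F) :
    Mem (closure (M \ C)) (closure (M \ C) ∩ C) F := by
  classical
  have hsubM : closure (M \ C) ⊆ M := closure_minimal Set.diff_subset hM.clM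
  refine ⟨isClosed_closure, isClosed_closure.inter hM.clC, Set.inter_subset_left,
    hM.cont.mono Set.inter_subset_right, ?_, ?_⟩
  · rintro ⟨G, hG, hGF⟩
    apply hM.non
    have h1 : EqOn (fun x => if x ∈ C then F x else G x) F C := fun x hx => by simp [hx]
    have h2 : EqOn (fun x => if x ∈ C then F x else G x) G (closure (M \ C)) := by
      intro x hx
      by_cases hxC : x ∈ C
      · simp only [hxC, if_true]
        exact (hGF ⟨hx, hxC⟩).symm
      · simp [hxC]
    refine ⟨fun x => if x ∈ C then F x else G x, ?_, h1⟩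
    have h3 : ContinuousOn (fun x => if x ∈ C then F x else G x) (closure (M \ C) ∪ C) :=
      ContinuousOn.union_of_isClosed (hG.congr h2) (hM.cont.congr h1) isClosed_closure hM.clC
    refine h3.mono ?_
    intro x hx
    by_cases hxC : x ∈ C
    · exact Or.inr hxC
    · exact Or.inl (subset_closure ⟨hx, hxC⟩)
  · intro M₁ hM₁ hC₁ hM₁M hne
    obtain ⟨G, hG, hGF⟩ := hM.min (M₁ ∪ C) (hM₁.union hM.clC) Set.subset_union_right
      (Set.union_subset (hM₁M.trans hsubM) hM.sub)
      (fun h => by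
        apply hne
        apply Set.Subset.antisymm hM₁M
        apply closure_minimal _ hM₁
        rintro x ⟨hx, hxC⟩
        rw [← h] at hx
        exact hx.resolve_right hxC)
    exact ⟨G, hG.mono Set.subset_union_left, fun x hx => hGF hx.2⟩

end Pool.Agent.Helper499.SA
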