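import Pool.Agent.Helper499.SA.Defs
import Pool.Agent.Helper499.SA.A03

set_option autoImplicit false

namespace Pool.Agent.Helper499.SA

open Set Filter Topology

variable {X : Type} [MetricSpace X]





theorem one_side_ext (V : Set X) (hVo : IsOpen V) (M C : Set X) (F : X → Circle) (hM : Mem M C F)
    (hV : ((M \ C) ∩ V).Nonempty) : Ext F (C \ V) (M \ V) := by
  obtain ⟨z, ⟨hzM, hzC⟩, hzV⟩ := hV
  have hcl : IsClosed ((M \ V) ∪ C) := (hM.clM.sdiff hVo).union hM.clC
  have hne : (M \ V) ∪ C ≠ M := by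
    intro h
    have hz : z ∈ (M \ V) ∪ C := by rw [h]; exact hzM
    rcases hz with hz | hz
    · exact hz.2 hzV
    · exact hzC hz
  obtain ⟨G, hG, hGF⟩ := hM.min _ hcl subset_union_right
    (union_subset (fun x hx => hx.1) hM.sub) hne
  exact ⟨G, hG.mono subset_union_left, fun x hx => hGF hx.1⟩

theorem one_sided (a : ℝ → X) (ha : ArcMap a) (A U V : Set X) (hA : A ⊆ a '' Icc 0 1)
    (hS : Sides A U V) (M C : Set X) (F : X → Circle) (hM : Mem M C F) (hAC : Disjoint A C)
    (hU : ((M \ C) ∩ U).Nonempty) (hV : ((M \ C) ∩ V).Nonempty) : False := by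
  apply hM.non
  refine glue a ha A U V A ∅ (a 0) hS.opU hS.opV hS.disj hS.compl (union_empty A).symm hS.closed
    isClosed_empty hA ?_ M C F hM.clM hM.clC hM.sub ?_ ?_
    (one_side_ext V hS.opV M C F hM hV) (one_side_ext U hS.opU M C F hM hU)
  · rintro x ⟨-, hx⟩
    exact absurd hx (notMem_empty x)
  · rintro x ⟨hx, -⟩
    exact absurd hx (notMem_empty x)
  · rintro x ⟨hx1, hx2⟩
    exact absurd hx2 (Set.disjoint_left.mp hAC hx1)

end Pool.Agent.Helper499.SA
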