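import Pool.Agent.Helper499.SA.Defs
import Pool.Agent.Helper499.SA.A05

set_option autoImplicit false

namespace Pool.Agent.Helper499.SA

open Set Filter Topology

variable {X : Type} [MetricSpace X]



theorem exists_far (A C M : Set X) (F : X → Circle) (hA : IsClosed A) (hM : Mem M C F)
    (hAC : Disjoint A C) : ∃ z ∈ M, z ∉ C ∧ z ∉ A := by
  classical
  by_contra hno
  push Not at hno
  apply hM.non
  refine ⟨fun x => if x ∈ C then F x else 1, ?_, fun x hx => by simp [hx]⟩
  have h1 : ContinuousOn (fun x => if x ∈ C then F x else 1) C :=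
    hM.cont.congr fun x hx => by simp [hx]
  have h2 : ContinuousOn (fun x => if x ∈ C then F x else 1) A :=
    (continuousOn_const (c := (1 : Circle))).congr fun x hx => by
      have : x ∉ C := Set.disjoint_left.1 hAC hx
      simp [this]
  have h3 := h1.union_of_isClosed h2 hM.clC hA
  refine h3.mono fun x hx => ?_
  by_cases hxC : x ∈ C
  · exact Or.inl hxC
  · exact Or.inr (hno x hx hxC)

theorem disj_aux [CompactSpace X] (hE : Eff X) (a : ℝ → X) (ha : ArcMap a) (A U V : Set X)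
    (hA : A ⊆ a '' Icc 0 1) (hS : Sides A U V) (M C : Set X) (F : X → Circle)
    (hM : Mem M C F) (hAC : Disjoint A C) (w : X) (hwA : w ∈ A) (hwM : w ∈ M)
    (z : X) (hzM : z ∈ M) (hzC : z ∉ C) (hzU : z ∈ U) : False := by
  have hwC : w ∉ C := Set.disjoint_left.1 hAC hwA
  obtain ⟨e1, he1, hd⟩ := hAC.exists_thickenings hS.closed.isCompact hM.clC
  obtain ⟨e2, he2, hb⟩ := Metric.isOpen_iff.1 hS.opU z hzU
  obtain ⟨δ, hδ, hk⟩ := hE (min e1 e2) (lt_min he1 he2)
  obtain ⟨v, hvV, hwv⟩ := Metric.mem_closure_iff.1 (hS.accV hwA) δ hδ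
  obtain ⟨k, hkv, hkd⟩ := hk v w (by rw [dist_comm]; exact hwv)
  refine one_sided (k ∘ a) (ha.comp k) (k '' A) (k '' U) (k '' V) ?_ (hS.image k) M C F hM ?_
    ⟨z, ⟨hzM, hzC⟩, ?_⟩ ⟨w, ⟨hwM, hwC⟩, ⟨v, hvV, hkv⟩⟩
  · rw [Set.image_comp]
    exact Set.image_mono hA
  · rw [Set.disjoint_left]
    rintro _ ⟨x, hx, rfl⟩ hC
    have h1 : k x ∈ Metric.thickening e1 A := by
      rw [Metric.mem_thickening_iff]
      exact ⟨x, hx, by rw [dist_comm]; exact (hkd x).trans_le (min_le_left _ _)⟩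
    have h2 : k x ∈ Metric.thickening e1 C := Metric.self_subset_thickening he1 C hC
    exact Set.disjoint_left.1 hd h1 h2
  · refine ⟨k.symm z, hb ?_, by simp⟩
    have := hkd (k.symm z)
    rw [k.apply_symm_apply] at this
    exact Metric.mem_ball.2 (this.trans_le (min_le_right _ _))


theorem disjoint_mem [CompactSpace X] (hE : Eff X) (a : ℝ → X) (ha : ArcMap a) (A U V : Set X)
    (hA : A ⊆ a '' Icc 0 1) (hS : Sides A U V) (M C : Set X) (F : X → Circle)
    (hM : Mem M C F) (hAC : Disjoint A C) : Disjoint A M := by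
  rw [Set.disjoint_left]
  intro w hwA hwM
  obtain ⟨z, hzM, hzC, hzA⟩ := exists_far A C M F hS.closed hM hAC
  have hz : z ∈ U ∪ V := by rw [hS.compl]; exact hzA
  rcases hz with hz | hz
  · exact disj_aux hE a ha A U V hA hS M C F hM hAC w hwA hwM z hzM hzC hz
  · exact disj_aux hE a ha A V U hA hS.symm M C F hM hAC w hwA hwM z hzM hzC hz

end Pool.Agent.Helper499.SA
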