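import Pool.Agent.Helper499.SA.Defs
import Pool.Agent.Helper499.SA.A01
import Pool.Agent.Helper499.SA.A04
import Pool.Agent.Helper499.SA.A06

set_option autoImplicit false

namespace Pool.Agent.Helper499.SA

open Set Filter Topology

variable {X : Type} [MetricSpace X]






theorem clopen_false [CompactSpace X] (hE : Eff X) (a : ℝ → X) (ha : ArcMap a) (A U V : Set X)
    (hA : A ⊆ a '' Icc 0 1) (hS : Sides A U V) (M C : Set X) (F : X → Circle)
    (hM : Mem M C F) (K₁ K₂ : Set X) (h1 : IsClosed K₁) (h2 : IsClosed K₂)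
    (h12 : Disjoint K₁ K₂) (hK : A ∩ M = K₁ ∪ K₂) (hne : K₁.Nonempty) (hC : Disjoint K₁ C) :
    False := by
  classical
  have hclM := hM.clM
  have hclC := hM.clC
  -- the open set B
  obtain ⟨B, hB, hKB, hBc⟩ := normal_exists_closure_subset h1 (h2.union hclC).isOpen_compl
    (fun x hx hx2 => by
      rcases hx2 with h | h
      · exact Set.disjoint_left.1 h12 hx h
      · exact Set.disjoint_left.1 hC hx h)
  have hBK2 : ∀ x ∈ closure B, x ∉ K₂ := fun x hx h => hBc hx (Or.inl h)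
  have hBC : ∀ x ∈ closure B, x ∉ C := fun x hx h => hBc hx (Or.inr h)
  set C1 : Set X := M ∩ frontier B with hC1
  have hC1cl : IsClosed C1 := hclM.inter isClosed_frontier
  have hfr : ∀ x ∈ frontier B, x ∈ closure B ∧ x ∉ B := by
    intro x hx
    rw [hB.frontier_eq] at hx
    exact hx
  have hAC1 : Disjoint A C1 := by
    rw [Set.disjoint_left]
    rintro x hxA ⟨hxM, hxf⟩
    have hx : x ∈ K₁ ∪ K₂ := by rw [← hK]; exact ⟨hxA, hxM⟩
    rcases hx with h | h
    · exact (hfr x hxf).2 (hKB h)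
    · exact hBK2 x (hfr x hxf).1 h
  have hAcomp : IsCompact A := hS.closed.isCompact
  obtain ⟨η, hη, hη2⟩ := Metric.exists_pos_forall_lt_edist hAcomp hC1cl hAC1
  obtain ⟨δ, hδ, hE2⟩ := hE (η : ℝ) (by exact_mod_cast hη)
  obtain ⟨w, hw⟩ := hne
  have hwAM : w ∈ A ∩ M := by rw [hK]; exact Or.inl hw
  have hwB : w ∈ B := hKB hw
  obtain ⟨ρ0, hρ0, hball⟩ := Metric.isOpen_iff.1 hB w hwB
  set ρ := min ρ0 δ with hρ
  have hρp : 0 < ρ := lt_min hρ0 hδ
  set O : Set X := Metric.ball w ρ with hO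
  have hOB : O ⊆ B := fun x hx => hball (Metric.ball_subset_ball (min_le_left _ _) hx)
  have hOo : IsOpen O := Metric.isOpen_ball
  have hMO : IsClosed (M \ O) := hclM.sdiff hOo
  have hCMO : C ⊆ M \ O := fun x hx => ⟨hM.sub hx, fun hxO => hBC x (subset_closure (hOB hxO)) hx⟩
  obtain ⟨G, hGc, hGF⟩ := hM.min (M \ O) hMO hCMO diff_subset (by
    intro h
    have : w ∈ M \ O := by rw [h]; exact hwAM.2
    exact this.2 (Metric.mem_ball_self hρp))
  have hC1MO : C1 ⊆ M \ O := fun x hx => ⟨hx.1, fun hxO => (hfr x hx.2).2 (hOB hxO)⟩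
  have hnon : ¬ Ext G C1 (M ∩ closure B) := by
    rintro ⟨G', hG'c, hG'⟩
    apply hM.non
    let H : X → Circle := fun x => if x ∈ closure B then G' x else G x
    have hH1 : ContinuousOn H (M ∩ closure B) := by
      refine hG'c.congr ?_
      intro x hx
      simp only [H]
      rw [if_pos hx.2]
    have hH2e : ∀ x ∈ M \ B, H x = G x := by
      intro x hx
      simp only [H]
      by_cases hxc : x ∈ closure B
      · rw [if_pos hxc]
        apply hG'
        refine ⟨hx.1, ?_⟩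
        rw [hB.frontier_eq]
        exact ⟨hxc, hx.2⟩
      · rw [if_neg hxc]
    have hH2 : ContinuousOn H (M \ B) := by
      refine (hGc.mono ?_).congr hH2e
      intro x hx
      exact ⟨hx.1, fun hxO => hx.2 (hOB hxO)⟩
    have hH := hH1.union_of_isClosed hH2 (hclM.inter isClosed_closure) (hclM.sdiff hB)
    refine ⟨H, hH.mono ?_, ?_⟩
    · intro x hx
      by_cases hxc : x ∈ closure B
      · exact Or.inl ⟨hx, hxc⟩
      · exact Or.inr ⟨hx, fun hxB => hxc (subset_closure hxB)⟩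
    · intro x hx
      have hxc : x ∉ closure B := fun h => hBC x h hx
      simp only [H]
      rw [if_neg hxc]
      exact hGF hx
  obtain ⟨M1, hM1s, hM1⟩ := exists_mem (M ∩ closure B) C1 G (hclM.inter isClosed_closure) hC1cl
    (fun x hx => ⟨hx.1, (hfr x hx.2).1⟩) (hGc.mono hC1MO) hnon
  have hex : ∃ w1, w1 ∈ M1 ∧ w1 ∈ O := by
    by_contra hcon
    push Not at hcon
    apply hM1.non
    exact ⟨G, hGc.mono (fun x hx => ⟨(hM1s hx).1, hcon x hx⟩), fun x _ => rfl⟩
  obtain ⟨w1, hw1M, hw1O⟩ := hex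
  have hdist : dist w w1 < δ := by
    have h3 : dist w1 w < ρ := hw1O
    rw [dist_comm]
    exact lt_of_lt_of_le h3 (min_le_right _ _)
  obtain ⟨k, hkw, hkd⟩ := hE2 w w1 hdist
  have hkdisj : Disjoint (k '' A) C1 := by
    rw [Set.disjoint_left]
    rintro _ ⟨x, hx, rfl⟩ hxC
    have h3 := hη2 x hx (k x) hxC
    have h4 := hkd x
    rw [edist_dist, ← ENNReal.ofReal_coe_nnreal, ENNReal.ofReal_lt_ofReal_iff_of_nonneg (by positivity)] at h3
    linarith
  have hfin := disjoint_mem hE (k ∘ a) (ha.comp k) (k '' A) (k '' U) (k '' V)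
    (by rw [Set.image_comp]; exact Set.image_mono hA) (hS.image k) M1 C1 G hM1 hkdisj
  exact Set.disjoint_left.1 hfin ⟨w, hwAM.1, hkw⟩ hw1M

end Pool.Agent.Helper499.SA
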