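import Pool.Agent.Helper499.SA.Defs
import Pool.Agent.Helper499.SA.A07

set_option autoImplicit false

namespace Pool.Agent.Helper499.SA

open Set Filter Topology

variable {X : Type} [MetricSpace X]




theorem initial_arc [CompactSpace X] (hE : Eff X) (a : ℝ → X) (ha : ArcMap a) (A U V : Set X)
    (hA : A ⊆ a '' Icc 0 1) (hS : Sides A U V) (M C : Set X) (F : X → Circle)
    (hM : Mem M C F) (hp : a 0 ∈ A) (hpM : a 0 ∈ M) (hpC : a 0 ∉ C) :
    ∃ u, 0 < u ∧ u ≤ 1 ∧ a '' Icc 0 u ⊆ A ∧ a '' Icc 0 u ⊆ M ∧ Disjoint (a '' Icc 0 u) C := by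
  have h0 : (0 : ℝ) ∈ Icc (0 : ℝ) 1 := ⟨le_rfl, zero_le_one⟩
  have hpre : a ⁻¹' Cᶜ ∈ 𝓝[Icc 0 1] (0 : ℝ) :=
    (ha.cont 0 h0).preimage_mem_nhdsWithin (hM.clC.isOpen_compl.mem_nhds hpC)
  obtain ⟨ε, hε, hball⟩ := Metric.mem_nhdsWithin_iff.1 hpre
  set t1 : ℝ := min (ε / 2) 1 with ht1
  have ht1pos : 0 < t1 := lt_min (by linarith) one_pos
  have ht1le : t1 ≤ 1 := min_le_right _ _
  have hnC : ∀ s, 0 ≤ s → s ≤ t1 → a s ∉ C := by
    intro s hs0 hs1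
    have : s ∈ a ⁻¹' Cᶜ := by
      apply hball
      refine ⟨?_, hs0, hs1.trans ht1le⟩
      rw [Metric.mem_ball, Real.dist_eq, sub_zero, abs_of_nonneg hs0]
      have : t1 ≤ ε / 2 := min_le_left _ _
      linarith
    exact this
  have hdisj : Disjoint (a '' Icc 0 t1) C := by
    rw [Set.disjoint_left]
    rintro x ⟨s, hs, rfl⟩ hx
    exact hnC s hs.1 hs.2 hx
  have hmain : ∀ t, 0 ≤ t → t ≤ t1 → a t ∈ A ∩ M := by
    intro t ht0 htt
    by_contra hcon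
    have htpos : 0 < t := by
      rcases ht0.eq_or_lt with h | h
      · exact absurd (h ▸ ⟨hp, hpM⟩ : a t ∈ A ∩ M) hcon
      · exact h
    have ht1' : t ≤ 1 := htt.trans ht1le
    have hcA : IsClosed (A ∩ M) := hS.closed.inter hM.clM
    refine clopen_false hE a ha A U V hA hS M C F hM ((A ∩ M) ∩ a '' Icc 0 t)
      ((A ∩ M) ∩ a '' Icc t 1) (hcA.inter (ha.compact le_rfl ht1').isClosed)
      (hcA.inter (ha.compact ht0 le_rfl).isClosed) ?_ ?_ ?_ ?_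
    · rw [Set.disjoint_left]
      rintro x ⟨hx, s, hs, rfl⟩ ⟨_, s', hs', hss⟩
      have he : s' = s := ha.inj ⟨ht0.trans hs'.1, hs'.2⟩ ⟨hs.1, hs.2.trans ht1'⟩ hss
      have : s = t := le_antisymm hs.2 (he ▸ hs'.1)
      rw [this] at hx
      exact hcon hx
    · ext x
      constructor
      · intro hx
        obtain ⟨s, hs, rfl⟩ := hA hx.1
        rcases le_total s t with h | h
        · exact Or.inl ⟨hx, s, ⟨hs.1, h⟩, rfl⟩
        · exact Or.inr ⟨hx, s, ⟨h, hs.2⟩, rfl⟩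
      · rintro (h | h)
        · exact h.1
        · exact h.1
    · exact ⟨a 0, ⟨hp, hpM⟩, 0, ⟨le_rfl, ht0⟩, rfl⟩
    · rw [Set.disjoint_left]
      rintro x ⟨_, s, hs, rfl⟩ hx
      exact hnC s hs.1 (hs.2.trans htt) hx
  refine ⟨t1, ht1pos, ht1le, ?_, ?_, hdisj⟩
  · rintro x ⟨s, hs, rfl⟩
    exact (hmain s hs.1 hs.2).1
  · rintro x ⟨s, hs, rfl⟩
    exact (hmain s hs.1 hs.2).2

end Pool.Agent.Helper499.SA
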