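import Pool.Agent.Helper499.SA.Defs

set_option autoImplicit false

namespace Pool.Agent.Helper499.SA

open Set Filter Topology

variable {X : Type} [MetricSpace X]


theorem near_inter [CompactSpace X] (P Q : Set X) (hP : IsClosed P) (hQ : IsClosed Q)
    (hne : (P ∩ Q).Nonempty) (η : ℝ) (hη : 0 < η) :
    ∃ η' > 0, ∀ x, Metric.infDist x P ≤ η' → Metric.infDist x Q ≤ η' →
      Metric.infDist x (P ∩ Q) < η := by
  have hPne : P.Nonempty := hne.mono Set.inter_subset_left
  have hQne : Q.Nonempty := hne.mono Set.inter_subset_right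
  have hKc : IsClosed {x : X | η ≤ Metric.infDist x (P ∩ Q)} :=
    isClosed_le continuous_const (Metric.continuous_infDist_pt _)
  have hKcomp : IsCompact {x : X | η ≤ Metric.infDist x (P ∩ Q)} := hKc.isCompact
  rcases Set.eq_empty_or_nonempty {x : X | η ≤ Metric.infDist x (P ∩ Q)} with hK | hK
  · refine ⟨1, one_pos, fun x _ _ => ?_⟩
    by_contra hcon
    push Not at hcon
    have : x ∈ {x : X | η ≤ Metric.infDist x (P ∩ Q)} := hcon
    rw [hK] at this
    exact this
  · obtain ⟨x0, hx0, hmin⟩ := hKcomp.exists_isMinOn hK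
      (f := fun x => max (Metric.infDist x P) (Metric.infDist x Q))
      ((Metric.continuous_infDist_pt P).max (Metric.continuous_infDist_pt Q)).continuousOn
    have hpos : 0 < max (Metric.infDist x0 P) (Metric.infDist x0 Q) := by
      by_contra hcon
      push Not at hcon
      have h1 : Metric.infDist x0 P = 0 :=
        le_antisymm ((le_max_left _ _).trans hcon) Metric.infDist_nonneg
      have h2 : Metric.infDist x0 Q = 0 :=
        le_antisymm ((le_max_right _ _).trans hcon) Metric.infDist_nonneg
      have h3 : x0 ∈ P := (hP.mem_iff_infDist_zero hPne).mpr h1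
      have h4 : x0 ∈ Q := (hQ.mem_iff_infDist_zero hQne).mpr h2
      have h5 : Metric.infDist x0 (P ∩ Q) = 0 := Metric.infDist_zero_of_mem ⟨h3, h4⟩
      have h6 : η ≤ Metric.infDist x0 (P ∩ Q) := hx0
      linarith
    refine ⟨max (Metric.infDist x0 P) (Metric.infDist x0 Q) / 2, by linarith, ?_⟩
    intro x hxP hxQ
    by_contra hcon
    push Not at hcon
    have h7 : max (Metric.infDist x0 P) (Metric.infDist x0 Q) ≤
        max (Metric.infDist x P) (Metric.infDist x Q) := hmin hcon
    have h8 := max_le hxP hxQ
    linarith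

end Pool.Agent.Helper499.SA
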