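import Pool.Agent.Helper499.SA.Defs
import Pool.Agent.Helper499.SA.A01
import Pool.Agent.Helper499.SA.A03
import Pool.Agent.Helper499.SA.A04

set_option autoImplicit false

namespace Pool.Agent.Helper499.SA

open Set Filter Topology

variable {X : Type} [MetricSpace X]






theorem thin_a_aux [CompactSpace X] (M C D : Set X) (hM : IsClosed M) (hC : IsClosed C)
    (hCM : C ⊆ M) (hD : C = D ∩ M) (F₀ : X → Circle) (O S' : Set X) (hS' : IsOpen S')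
    (hOC : Disjoint O C) (hF : ContinuousOn F₀ (M \ O))
    (hn : ¬ Ext F₀ (C \ S') (M \ S')) :
    ∃ M₀ : Set X, Mem M₀ (D ∩ M₀) F₀ ∧ Disjoint M₀ S' ∧ ∃ w ∈ M₀, w ∉ D ∧ w ∈ O := by
  have hcl : IsClosed (M \ S') := by
    rw [Set.diff_eq]; exact hM.inter hS'.isClosed_compl
  have hcl' : IsClosed (C \ S') := by
    rw [Set.diff_eq]; exact hC.inter hS'.isClosed_compl
  have hcO : C ⊆ M \ O := fun x hx => ⟨hCM hx, fun hO => Set.disjoint_left.mp hOC hO hx⟩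
  obtain ⟨M₀, hM₀, hmem⟩ := exists_mem (M \ S') (C \ S') F₀ hcl hcl'
    (Set.diff_subset_diff_left hCM) (hF.mono (Set.diff_subset.trans hcO)) hn
  have heq : C \ S' = D ∩ M₀ := by
    apply Set.Subset.antisymm
    · intro x hx
      refine ⟨?_, hmem.sub hx⟩
      have := hx.1
      rw [hD] at this
      exact this.1
    · intro x hx
      refine ⟨?_, (hM₀ hx.2).2⟩
      rw [hD]
      exact ⟨hx.1, (hM₀ hx.2).1⟩
  rw [heq] at hmem
  have hdis : Disjoint M₀ S' := Set.disjoint_left.mpr fun x hx hS => (hM₀ hx).2 hS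
  refine ⟨M₀, hmem, hdis, ?_⟩
  by_contra hcon
  push Not at hcon
  apply hmem.non
  refine ⟨F₀, ?_, fun x _ => rfl⟩
  refine hF.mono fun x hx => ⟨(hM₀ hx).1, fun hO => ?_⟩
  have hxD : x ∈ D := by
    by_contra hxD
    exact hcon x hx hxD hO
  have hxC : x ∈ C := by
    rw [hD]; exact ⟨hxD, (hM₀ hx).1⟩
  exact Set.disjoint_left.mp hOC hO hxC

theorem thin_a [CompactSpace X] (a : ℝ → X) (ha : ArcMap a) (A U V : Set X)
    (hA : A ⊆ a '' Icc 0 1) (hS : Sides A U V) (M C : Set X) (F : X → Circle)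
    (hM : Mem M C F) (u : ℝ) (hu0 : 0 < u) (hu1 : u ≤ 1) (hI : a '' Icc 0 u ⊆ A)
    (hp : a 0 ∈ M) (hIC : Disjoint (a '' Icc 0 u) C) (ρ : ℝ) (hρ : 0 < ρ) :
    ∃ (S S' M₀ : Set X) (F₀ : X → Circle), Sides A S S' ∧ (S = U ∨ S = V) ∧
      Mem M₀ ((C ∪ DD (a '' Icc 0 u) (A ∩ a '' Icc u 1)) ∩ M₀) F₀ ∧ Disjoint M₀ S' ∧
      ∃ w ∈ M₀, w ∉ C ∪ DD (a '' Icc 0 u) (A ∩ a '' Icc u 1) ∧ dist w (a 0) < ρ := by
  set I : Set X := a '' Icc 0 u with hIdef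
  set R : Set X := A ∩ a '' Icc u 1 with hRdef
  set D₀ : Set X := DD I R with hD₀
  have hIcl : IsClosed I := (ha.compact le_rfl hu1).isClosed
  have hRcl : IsClosed R := hS.closed.inter (ha.compact hu0.le le_rfl).isClosed
  have hbI : a u ∈ I := ⟨u, ⟨hu0.le, le_rfl⟩, rfl⟩
  have hbR : a u ∈ R := ⟨hI hbI, ⟨u, ⟨le_rfl, hu1⟩, rfl⟩⟩
  have hAeq : A = I ∪ R := by
    apply Set.Subset.antisymm
    · intro x hx
      obtain ⟨t, ht, rfl⟩ := hA hx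
      rcases le_total t u with h | h
      · exact Or.inl ⟨t, ⟨ht.1, h⟩, rfl⟩
      · exact Or.inr ⟨hx, ⟨t, ⟨h, ht.2⟩, rfl⟩⟩
    · intro x hx
      rcases hx with h | h
      · exact hI h
      · exact h.1
  have hIa : I ⊆ a '' Icc 0 1 := Set.image_mono (Icc_subset_Icc le_rfl hu1)
  have hIR : I ∩ R ⊆ {a u} := by
    rintro x ⟨⟨s, hs, rfl⟩, ⟨_, ⟨t, ht, hst⟩⟩⟩
    have h1 : t = s := ha.inj ⟨hu0.le.trans ht.1, ht.2⟩ ⟨hs.1, hs.2.trans hu1⟩ hst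
    have h2 : s = u := le_antisymm hs.2 (h1 ▸ ht.1)
    rw [h2]; exact Set.mem_singleton _
  have hDcl : IsClosed D₀ := isClosed_le (Metric.continuous_infDist_pt R)
    (Metric.continuous_infDist_pt I)
  have hRD : R ⊆ D₀ := by
    intro x hx
    show Metric.infDist x R ≤ Metric.infDist x I
    rw [Metric.infDist_zero_of_mem hx]
    exact Metric.infDist_nonneg
  have hID : I ∩ D₀ ⊆ R := by
    rintro x ⟨hxI, hxD⟩
    have h1 : Metric.infDist x R ≤ Metric.infDist x I := hxD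
    rw [Metric.infDist_zero_of_mem hxI] at h1
    have h2 : Metric.infDist x R = 0 := le_antisymm h1 Metric.infDist_nonneg
    exact (hRcl.mem_iff_infDist_zero ⟨a u, hbR⟩).mpr h2
  set C₀ : Set X := (C ∪ D₀) ∩ M with hC₀
  have hC₀cl : IsClosed C₀ := (hM.clC.union hDcl).inter hM.clM
  have h0I : a 0 ∈ I := ⟨0, ⟨le_rfl, hu0.le⟩, rfl⟩
  have h0R : a 0 ∉ R := by
    rintro ⟨_, ⟨t, ht, h0t⟩⟩
    have h1 : t = 0 := ha.inj ⟨hu0.le.trans ht.1, ht.2⟩ ⟨le_rfl, zero_le_one⟩ h0t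
    have := ht.1
    rw [h1] at this
    exact absurd this (not_le.mpr hu0)
  have h0C : a 0 ∉ C₀ := by
    rintro ⟨h | h, _⟩
    · exact Set.disjoint_left.mp hIC h0I h
    · exact h0R (hID ⟨h0I, h⟩)
  obtain ⟨F₀, O, hO, h0O, hOb, hOC, hF₀, _, hne⟩ := ntrick M C F hM C₀ hC₀cl
    (fun x hx => ⟨Or.inl hx, hM.sub hx⟩) Set.inter_subset_right (a 0) hp h0C ρ hρ
  have hor : ¬ Ext F₀ (C₀ \ V) (M \ V) ∨ ¬ Ext F₀ (C₀ \ U) (M \ U) := by
    by_contra hcon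
    push Not at hcon
    refine hne (glue a ha A U V I R (a u) hS.opU hS.opV hS.disj hS.compl hAeq hIcl hRcl hIa hIR
      M C₀ F₀ hM.clM hC₀cl Set.inter_subset_right ?_ ?_ hcon.1 hcon.2)
    · rintro x ⟨hxR, hxM⟩
      exact ⟨Or.inr (hRD hxR), hxM⟩
    · rintro x ⟨hxI, ⟨h | h, _⟩⟩
      · exact absurd h (Set.disjoint_left.mp hIC hxI)
      · exact hIR ⟨hxI, hID ⟨hxI, h⟩⟩
  rcases hor with h | h
  · obtain ⟨M₀, h1, h2, w, hw, hwD, hwO⟩ := thin_a_aux M C₀ (C ∪ D₀) hM.clM hC₀cl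
      Set.inter_subset_right rfl F₀ O V hS.opV hOC hF₀ h
    exact ⟨U, V, M₀, F₀, hS, Or.inl rfl, h1, h2, w, hw, hwD, hOb hwO⟩
  · obtain ⟨M₀, h1, h2, w, hw, hwD, hwO⟩ := thin_a_aux M C₀ (C ∪ D₀) hM.clM hC₀cl
      Set.inter_subset_right rfl F₀ O U hS.opU hOC hF₀ h
    exact ⟨V, U, M₀, F₀, hS.symm, Or.inr rfl, h1, h2, w, hw, hwD, hOb hwO⟩

end Pool.Agent.Helper499.SA
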