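import Pool.Agent.Helper499.SA.Defs
import Pool.Agent.Helper499.SA.A01
import Pool.Agent.Helper499.SA.A03
import Pool.Agent.Helper499.SA.A04

set_option autoImplicit false

namespace Pool.Agent.Helper499.SA

open Set Filter Topology

variable {X : Type} [MetricSpace X]






theorem thin_b [CompactSpace X] (hE : Eff X) (a : ℝ → X) (ha : ArcMap a) (A : Set X)
    (hA : A ⊆ a '' Icc 0 1) (u₁ : ℝ) (h0 : 0 < u₁) (h1 : u₁ ≤ 1) (hI : a '' Icc 0 u₁ ⊆ A)
    (hAc : IsClosed A)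
    (E : Set X) (hEc : IsClosed E) (hIE : Disjoint (a '' Icc 0 u₁) E) (ε₁ : ℝ) (hε₁ : 0 < ε₁) :
    ∃ ρ > 0, ∀ (S S' M₀ : Set X) (F₀ : X → Circle), Sides A S S' → Mem M₀ (E ∩ M₀) F₀ →
      Disjoint M₀ S' → ∀ w ∈ M₀, w ∉ E → dist w (a 0) < ρ →
      ∃ (k : X ≃ₜ X) (M₁ : Set X) (F₁ : X → Circle), (∀ z, dist z (k z) < ε₁) ∧ M₁ ⊆ M₀ ∧
        Disjoint M₁ (k '' S) ∧
        Mem M₁ ((E ∪ DD (k '' (a '' Icc 0 u₁)) (k '' (A ∩ a '' Icc u₁ 1))) ∩ M₁) F₁ ∧
        ∃ w₁ ∈ M₁, w₁ ∉ E ∪ DD (k '' (a '' Icc 0 u₁)) (k '' (A ∩ a '' Icc u₁ 1)) ∧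
          dist w₁ (a 0) < ε₁ := by
  classical
  set I1 : Set X := a '' Icc 0 u₁ with hI1
  set R1 : Set X := A ∩ a '' Icc u₁ 1 with hR1
  have f1 : A = I1 ∪ R1 := by
    apply Subset.antisymm
    · intro x hx
      obtain ⟨t, ht, rfl⟩ := hA hx
      rcases le_total t u₁ with h | h
      · exact Or.inl ⟨t, ⟨ht.1, h⟩, rfl⟩
      · exact Or.inr ⟨hx, t, ⟨h, ht.2⟩, rfl⟩
    · exact union_subset hI inter_subset_left
  have f2 : I1 ∩ R1 ⊆ {a u₁} := by
    rintro x ⟨⟨s, hs, rfl⟩, _, t, ht, hst⟩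
    have : t = s := ha.inj ⟨h0.le.trans ht.1, ht.2⟩ ⟨hs.1, hs.2.trans h1⟩ hst
    have h3 : s = u₁ := le_antisymm hs.2 (this ▸ ht.1)
    rw [h3]; rfl
  have hauI : a u₁ ∈ I1 := ⟨u₁, ⟨h0.le, le_rfl⟩, rfl⟩
  have ha0I : a 0 ∈ I1 := ⟨0, ⟨le_rfl, h0.le⟩, rfl⟩
  have f3 : R1.Nonempty := ⟨a u₁, hI hauI, u₁, ⟨le_rfl, h1⟩, rfl⟩
  have hI1c : IsCompact I1 := ha.compact le_rfl h1
  have hR1c : IsCompact R1 := (ha.compact h0.le le_rfl).inter_left hAc
  have f5 : a 0 ∉ R1 := by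
    rintro ⟨_, t, ht, h⟩
    have : t = 0 := ha.inj ⟨h0.le.trans ht.1, ht.2⟩ ⟨le_rfl, zero_le_one⟩ h
    linarith [ht.1]
  have hd0 : 0 < Metric.infDist (a 0) R1 :=
    (hR1c.isClosed.notMem_iff_infDist_pos f3).1 f5
  obtain ⟨e₁, he₁, hth⟩ := hIE.exists_thickenings hI1c hEc
  have f6 : ∀ x ∈ I1, ∀ y, dist x y < e₁ → y ∉ E := by
    intro x hx y hxy hy
    apply disjoint_left.1 hth
    · exact Metric.mem_thickening_iff.2 ⟨x, hx, by rwa [dist_comm]⟩
    · exact Metric.self_subset_thickening he₁ _ hy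
  set d0 := Metric.infDist (a 0) R1 with hd0def
  obtain ⟨e, he, he1, he2, he3⟩ : ∃ e > 0, e ≤ e₁ ∧ 4 * e < d0 ∧ 2 * e ≤ ε₁ := by
    refine ⟨min e₁ (min (d0 / 5) (ε₁ / 2)), ?_, ?_, ?_, ?_⟩
    · exact lt_min he₁ (lt_min (by linarith) (by linarith))
    · exact min_le_left _ _
    · have : min e₁ (min (d0 / 5) (ε₁ / 2)) ≤ d0 / 5 :=
        (min_le_right _ _).trans (min_le_left _ _)
      linarith
    · have : min e₁ (min (d0 / 5) (ε₁ / 2)) ≤ ε₁ / 2 :=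
        (min_le_right _ _).trans (min_le_right _ _)
      linarith
  obtain ⟨δ, hδ, hmove⟩ := hE e he
  refine ⟨min (δ / 2) e, lt_min (by linarith) he, ?_⟩
  intro S S' M₀ F₀ hS hM _ w hw hwE hwd
  have hρ1 : min (δ / 2) e ≤ δ / 2 := min_le_left _ _
  have hρ2 : min (δ / 2) e ≤ e := min_le_right _ _
  have hρ : 0 < min (δ / 2) e := lt_min (by linarith) he
  obtain ⟨v, hvS, hv⟩ := Metric.mem_closure_iff.1 (hS.accV (hI ha0I)) _ hρ
  obtain ⟨k, hkv, hk⟩ := hmove v w (by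
    have := dist_triangle v (a 0) w
    rw [dist_comm v (a 0), dist_comm (a 0) w] at this
    linarith)
  have hSk := hS.image k
  have hwk : w ∈ k '' S' := ⟨v, hvS, hkv⟩
  set D1 : Set X := DD (k '' I1) (k '' R1) with hD1
  have hkI : IsClosed (k '' I1) := (hI1c.image k.continuous).isClosed
  have hkR : IsClosed (k '' R1) := (hR1c.image k.continuous).isClosed
  have hkRn : (k '' R1).Nonempty := f3.image _
  have hD1c : IsClosed D1 :=
    isClosed_le (Metric.continuous_infDist_pt _) (Metric.continuous_infDist_pt _)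
  have hwD : w ∉ D1 := by
    intro hh
    have hh' : Metric.infDist w (k '' R1) ≤ Metric.infDist w (k '' I1) := hh
    have a1 : Metric.infDist w (k '' I1) ≤ dist w (k (a 0)) :=
      Metric.infDist_le_dist_of_mem ⟨a 0, ha0I, rfl⟩
    have a2 : dist w (k (a 0)) ≤ dist w (a 0) + dist (a 0) (k (a 0)) := dist_triangle _ _ _
    have a3 := hk (a 0)
    have a4 : d0 - 2 * e ≤ Metric.infDist w (k '' R1) := by
      rw [Metric.le_infDist hkRn]
      rintro _ ⟨z, hz, rfl⟩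
      have b1 : d0 ≤ dist (a 0) z := Metric.infDist_le_dist_of_mem hz
      have b2 := dist_triangle (a 0) w z
      have b3 := dist_triangle w (k z) z
      have b4 := hk z
      rw [dist_comm (a 0) w] at b2
      rw [dist_comm (k z) z] at b3
      linarith
    linarith
  set C1 : Set X := (E ∪ D1) ∩ M₀ with hC1
  have hC1c : IsClosed C1 := (hEc.union hD1c).inter hM.clM
  have hwC1 : w ∉ C1 := by
    rintro ⟨hh | hh, _⟩
    · exact hwE hh
    · exact hwD hh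
  obtain ⟨r, hr, hr1, hr2⟩ : ∃ r > 0, Metric.ball w r ⊆ k '' S' ∧ r ≤ e := by
    obtain ⟨r, hr, h⟩ := Metric.isOpen_iff.1 hSk.opV w hwk
    exact ⟨min r e, lt_min hr he, (Metric.ball_subset_ball (min_le_left _ _)).trans h,
      min_le_right _ _⟩
  obtain ⟨F1, O1, hO1, hwO1, hO1b, hO1C, hF1c, hF1e, hF1n⟩ := ntrick M₀ (E ∩ M₀) F₀ hM C1 hC1c
    (inter_subset_inter_left _ subset_union_left) inter_subset_right w hw hwC1 r hr
  have hO1S : O1 ⊆ k '' S' := hO1b.trans hr1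
  have g1 : Ext F1 (C1 \ (k '' S')) (M₀ \ (k '' S')) :=
    ⟨F1, hF1c.mono (diff_subset_diff_right hO1S), fun _ _ => rfl⟩
  have g2 : ¬ Ext F1 (C1 \ (k '' S)) (M₀ \ (k '' S)) := by
    intro g2
    apply hF1n
    refine glue (k ∘ a) (ha.comp k) (k '' A) (k '' S) (k '' S') (k '' I1) (k '' R1) (k (a u₁))
      hSk.opU hSk.opV hSk.disj hSk.compl ?_ hkI hkR ?_ ?_ M₀ C1 F1 hM.clM hC1c
      inter_subset_right ?_ ?_ g1 g2
    · rw [← image_union, ← f1]
    · rw [image_comp]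
      exact image_mono (image_mono (Icc_subset_Icc_right h1))
    · rw [← image_inter k.injective]
      rintro _ ⟨x, hx, rfl⟩
      rw [f2 hx]; rfl
    · rintro x ⟨hx, hxM⟩
      refine ⟨Or.inr ?_, hxM⟩
      show Metric.infDist x (k '' R1) ≤ Metric.infDist x (k '' I1)
      rw [Metric.infDist_zero_of_mem hx]
      exact Metric.infDist_nonneg
    · rintro x ⟨hx, hxC, _⟩
      have hxE : x ∉ E := by
        obtain ⟨y, hy, rfl⟩ := hx
        exact f6 y hy _ ((hk y).trans_le he1)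
      have hxD : Metric.infDist x (k '' R1) ≤ Metric.infDist x (k '' I1) := by
        rcases hxC with h | h
        · exact absurd h hxE
        · exact h
      rw [Metric.infDist_zero_of_mem hx] at hxD
      have hxR : x ∈ k '' R1 := by
        rw [hkR.mem_iff_infDist_zero hkRn]
        exact le_antisymm hxD Metric.infDist_nonneg
      have : x ∈ k '' (I1 ∩ R1) := by
        rw [image_inter k.injective]
        exact ⟨hx, hxR⟩
      obtain ⟨y, hy, rfl⟩ := this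
      rw [f2 hy]; rfl
  have hC1O : C1 ⊆ M₀ \ O1 := fun x hx => ⟨hx.2, fun h => disjoint_left.1 hO1C h hx⟩
  obtain ⟨M₁, hM₁, hMem⟩ := exists_mem (M₀ \ (k '' S)) (C1 \ (k '' S)) F1
    (hM.clM.sdiff hSk.opU) (hC1c.sdiff hSk.opU) (diff_subset_diff_left inter_subset_right)
    (hF1c.mono (diff_subset.trans hC1O)) g2
  have hCeq : C1 \ (k '' S) = (E ∪ D1) ∩ M₁ := by
    apply Subset.antisymm
    · intro x hx
      exact ⟨hx.1.1, hMem.sub hx⟩
    · rintro x ⟨hx, hxM⟩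
      exact ⟨⟨hx, (hM₁ hxM).1⟩, (hM₁ hxM).2⟩
  refine ⟨k, M₁, F1, ?_, hM₁.trans diff_subset, ?_, ?_, ?_⟩
  · intro z
    have := hk z
    linarith
  · exact disjoint_left.2 fun x hx hx' => (hM₁ hx).2 hx'
  · rw [← hCeq]
    exact hMem
  · by_contra hcon
    apply hMem.non
    refine ⟨F1, hF1c.mono ?_, fun _ _ => rfl⟩
    intro x hx
    refine ⟨(hM₁ hx).1, fun hxO => hcon ⟨x, hx, ?_, ?_⟩⟩
    · intro hxE
      exact disjoint_left.1 hO1C hxO ⟨hxE, (hM₁ hx).1⟩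
    · have b1 : dist x w < r := hO1b hxO
      have b2 := dist_triangle x w (a 0)
      linarith

end Pool.Agent.Helper499.SA
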