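import Pool.Agent.Helper499.SA.Defs
import Pool.Agent.Helper499.SA.A04
import Pool.Agent.Helper499.SA.A09
import Pool.Agent.Helper499.SA.A10
import Pool.Agent.Helper499.SA.A11

set_option autoImplicit false

namespace Pool.Agent.Helper499.SA

open Set Filter Topology

variable {X : Type} [MetricSpace X]







theorem thin_membranes [CompactSpace X] (hE : Eff X) (a : ℝ → X) (ha : ArcMap a)
    (A U V : Set X) (hA : A ⊆ a '' Icc 0 1) (hS : Sides A U V) (M C : Set X) (F : X → Circle)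
    (hM : Mem M C F) (u : ℝ) (hu0 : 0 < u) (hu1 : u ≤ 1) (hI : a '' Icc 0 u ⊆ A)
    (hp : a 0 ∈ M) (hIC : Disjoint (a '' Icc 0 u) C) : Thin a u := by
  intro ε hε
  have hAc : IsClosed A := hS.closed
  -- the parameter u1
  obtain ⟨u1, hu10, hu1u, hball⟩ : ∃ u1, 0 < u1 ∧ u1 < u ∧
      ∀ t ∈ Icc u1 u, dist (a t) (a u) < ε / 2 := by
    have hc := Metric.continuousWithinAt_iff.1 (ha.cont u ⟨hu0.le, hu1⟩) (ε / 2) (by linarith)
    obtain ⟨δ, hδ, hδ'⟩ := hc
    refine ⟨max (u / 2) (u - δ / 2), lt_max_of_lt_left (by linarith),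
      max_lt (by linarith) (by linarith), ?_⟩
    rintro t ⟨ht1, ht2⟩
    have h1 := (le_max_left _ _).trans ht1
    have h2 := (le_max_right _ _).trans ht1
    apply hδ' ⟨by linarith, by linarith⟩
    rw [Real.dist_eq, abs_lt]
    constructor <;> linarith
  set I := a '' Icc 0 u with hIdef
  set R := A ∩ a '' Icc u 1 with hRdef
  set I1 := a '' Icc 0 u1 with hI1def
  set R1 := A ∩ a '' Icc u1 1 with hR1def
  have hIc : IsClosed I := (ha.compact le_rfl hu1).isClosed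
  have hRc : IsClosed R := hAc.inter (ha.compact hu0.le le_rfl).isClosed
  have hR1c : IsClosed R1 := hAc.inter (ha.compact hu10.le le_rfl).isClosed
  have hauI : a u ∈ I := ⟨u, ⟨hu0.le, le_rfl⟩, rfl⟩
  have hauA : a u ∈ A := hI hauI
  have hauR : a u ∈ R := ⟨hauA, u, ⟨le_rfl, hu1⟩, rfl⟩
  have hauR1 : a u ∈ R1 := ⟨hauA, u, ⟨hu1u.le, hu1⟩, rfl⟩
  have hIRne : (I ∩ R).Nonempty := ⟨_, hauI, hauR⟩
  have hIR1ne : (I ∩ R1).Nonempty := ⟨_, hauI, hauR1⟩
  have hR1ne : R1.Nonempty := ⟨_, hauR1⟩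
  have hI1I : I1 ⊆ I := by
    rintro _ ⟨t, ht, rfl⟩
    exact ⟨t, ⟨ht.1, ht.2.trans hu1u.le⟩, rfl⟩
  have hEc : IsClosed (C ∪ DD I R) := by
    apply hM.clC.union
    exact isClosed_le (Metric.continuous_infDist_pt _) (Metric.continuous_infDist_pt _)
  have hIE : Disjoint I1 (C ∪ DD I R) := by
    rw [Set.disjoint_union_right]
    refine ⟨hIC.mono_left hI1I, ?_⟩
    rw [Set.disjoint_left]
    rintro _ ⟨t, ht, rfl⟩ hD
    have h1 : Metric.infDist (a t) R ≤ Metric.infDist (a t) I := hD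
    have h2 : Metric.infDist (a t) I = 0 :=
      Metric.infDist_zero_of_mem (hI1I ⟨t, ht, rfl⟩)
    have h3 : Metric.infDist (a t) R = 0 :=
      le_antisymm (h1.trans h2.le) Metric.infDist_nonneg
    have h4 : a t ∈ R := (hRc.mem_iff_infDist_zero ⟨_, hauR⟩).2 h3
    obtain ⟨-, t', ht', he⟩ := h4
    have h5 : t' = t := ha.inj ⟨by linarith [ht'.1], ht'.2⟩
      ⟨ht.1, by linarith [ht.2]⟩ he
    rw [h5] at ht'
    linarith [ht'.1, ht.2]
  obtain ⟨η1, hη1, hn1⟩ := near_inter I R1 hIc hR1c ⟨_, hauI, hauR1⟩ (ε / 2) (by linarith)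
  obtain ⟨η2, hη2, hn2⟩ := near_inter I R hIc hRc ⟨_, hauI, hauR⟩ ε hε
  obtain ⟨r, hr0, hr⟩ := Metric.exists_pos_forall_lt_edist (ha.compact le_rfl hu1) hM.clC hIC
  -- eta0
  obtain ⟨η0, hη0, hη0ε, hη01, hη02, hη0r⟩ : ∃ η0 : ℝ, 0 < η0 ∧ η0 < ε ∧ η0 ≤ η1 / 2 ∧ η0 ≤ η2 ∧
      η0 < r := by
    have hr0' : (0:ℝ) < r := hr0
    refine ⟨min (min (ε / 2) (η1 / 2)) (min η2 (r / 2)), ?_, ?_, ?_, ?_, ?_⟩
    · apply lt_min (lt_min _ _) (lt_min _ _) <;> linarith
    · exact lt_of_le_of_lt ((min_le_left _ _).trans (min_le_left _ _)) (by linarith)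
    · exact (min_le_left _ _).trans (min_le_right _ _)
    · exact (min_le_right _ _).trans (min_le_left _ _)
    · exact lt_of_le_of_lt ((min_le_right _ _).trans (min_le_right _ _)) (by linarith)
  have hCI : ∀ x ∈ C, η0 < Metric.infDist x I := by
    intro x hx
    refine lt_of_lt_of_le hη0r ?_
    rw [Metric.le_infDist ⟨_, hauI⟩]
    intro y hy
    have h1 := hr y hy x hx
    rw [edist_comm, edist_nndist, ENNReal.coe_lt_coe] at h1
    rw [dist_nndist]
    exact_mod_cast h1.le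
  -- safety margin for a side
  have hmarg : ∀ S S' : Set X, Sides A S S' → ∃ e > 0, ∀ x ∈ closure S, η0 ≤ Metric.infDist x A →
      ∀ y, dist y x < e → y ∈ S := by
    intro S S' hSS
    have hcl : ∀ x ∈ closure S, x ∉ A → x ∈ S := by
      intro x hx hxA
      by_contra hxS
      have h1 : x ∈ S ∪ S' := by rw [hSS.compl]; exact hxA
      have h2 : x ∈ S' := h1.resolve_left hxS
      obtain ⟨z, hz1, hz2⟩ := mem_closure_iff.1 hx S' hSS.opV h2
      exact Set.disjoint_left.1 hSS.disj hz2 hz1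
    have hQ : IsCompact (closure S ∩ {x | η0 ≤ Metric.infDist x A}) :=
      (isClosed_closure.inter (isClosed_le continuous_const
        (Metric.continuous_infDist_pt _))).isCompact
    have hQS : closure S ∩ {x | η0 ≤ Metric.infDist x A} ⊆ S := by
      rintro x ⟨h1, h2⟩
      apply hcl x h1
      intro hxA
      have h3 : η0 ≤ Metric.infDist x A := h2
      rw [Metric.infDist_zero_of_mem hxA] at h3
      linarith
    obtain ⟨e, he, he'⟩ := hQ.exists_thickening_subset_open hSS.opU hQS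
    refine ⟨e, he, fun x hx hxA y hy => he' ?_⟩
    rw [Metric.mem_thickening_iff]
    exact ⟨x, ⟨hx, hxA⟩, hy⟩
  obtain ⟨eU, heU, hU⟩ := hmarg U V hS
  obtain ⟨eV, heV, hV⟩ := hmarg V U hS.symm
  obtain ⟨e1, he1, he1U, he1V, he1ε, he1η⟩ : ∃ e1 : ℝ, 0 < e1 ∧ e1 ≤ eU ∧ e1 ≤ eV ∧ e1 < ε ∧
      η0 + 2 * e1 ≤ η1 := by
    refine ⟨min (min eU eV) (min (ε / 2) (η1 / 4)), ?_, ?_, ?_, ?_, ?_⟩
    · apply lt_min (lt_min _ _) (lt_min _ _) <;> linarith
    · exact (min_le_left _ _).trans (min_le_left _ _)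
    · exact (min_le_left _ _).trans (min_le_right _ _)
    · exact lt_of_le_of_lt ((min_le_right _ _).trans (min_le_left _ _)) (by linarith)
    · have h1 : min (min eU eV) (min (ε / 2) (η1 / 4)) ≤ η1 / 4 :=
        (min_le_right _ _).trans (min_le_right _ _)
      linarith
  obtain ⟨ρ, hρ, hthin⟩ := thin_b hE a ha A hA u1 hu10 (by linarith) (hI1I.trans hI) hAc
    (C ∪ DD I R) hEc hIE e1 he1
  obtain ⟨S, S', M₀, F₀, hSS, hSUV, hM₀, hdis, w, hw, hwE, hwρ⟩ :=
    thin_a a ha A U V hA hS M C F hM u hu0 hu1 hI hp hIC ρ hρ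
  obtain ⟨k, M₁, F₁, hk, hM₁₀, hdis₁, hM₁, w₁, hw₁, hw₁E, hw₁ρ⟩ :=
    hthin S S' M₀ F₀ hSS hM₀ hdis w hw hwE hwρ
  have hkR1ne : (k '' R1).Nonempty := hR1ne.image k
  have hSm : ∀ x ∈ closure S, η0 ≤ Metric.infDist x A → ∀ y, dist y x < e1 → y ∈ S := by
    intro x hx hxA y hy
    rcases hSUV with h | h
    · rw [h] at hx ⊢
      exact hU x hx hxA y (lt_of_lt_of_le hy he1U)
    · rw [h] at hx ⊢
      exact hV x hx hxA y (lt_of_lt_of_le hy he1V)
  set C₁ := (C ∪ DD I R ∪ DD (k '' I1) (k '' R1)) ∩ M₁ with hC₁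
  have hclean := clean M₁ C₁ F₁ hM₁
  have hclaim : ∀ x ∈ M₁ \ C₁, Metric.infDist x I < η0 := by
    rintro x ⟨hx1, hx2⟩
    have hxE : x ∉ C ∪ DD I R ∪ DD (k '' I1) (k '' R1) := fun h => hx2 ⟨h, hx1⟩
    have hxD0 : x ∉ DD I R := fun h => hxE (Or.inl (Or.inr h))
    have hlt : Metric.infDist x I < Metric.infDist x R := not_le.1 hxD0
    have hxA : Metric.infDist x A < η0 := by
      by_contra hcon
      push Not at hcon
      have hxA' : x ∉ A := by
        intro h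
        rw [Metric.infDist_zero_of_mem h] at hcon
        linarith
      have h1 : x ∈ S ∪ S' := by rw [hSS.compl]; exact hxA'
      have h2 : x ∉ S' := Set.disjoint_left.1 hdis (hM₁₀ hx1)
      have h3 : x ∈ S := h1.resolve_right h2
      have h4 : dist (k.symm x) x < e1 := by
        have := hk (k.symm x)
        rwa [k.apply_symm_apply] at this
      have h5 := hSm x (subset_closure h3) hcon _ h4
      exact Set.disjoint_left.1 hdis₁ hx1 ⟨k.symm x, h5, k.apply_symm_apply x⟩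
    obtain ⟨y, hyA, hxy⟩ := (Metric.infDist_lt_iff ⟨_, hauA⟩).1 hxA
    obtain ⟨t, ht, hty⟩ := hA hyA
    rcases le_total t u with h | h
    · exact lt_of_le_of_lt (Metric.infDist_le_dist_of_mem ⟨t, ⟨ht.1, h⟩, hty⟩) hxy
    · have hyR : y ∈ R := ⟨hyA, t, ⟨h, ht.2⟩, hty⟩
      exact hlt.trans (lt_of_le_of_lt (Metric.infDist_le_dist_of_mem hyR) hxy)
  have hM₂ : ∀ x ∈ closure (M₁ \ C₁), Metric.infDist x I ≤ η0 := by
    have hcl : IsClosed {x | Metric.infDist x I ≤ η0} :=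
      isClosed_le (Metric.continuous_infDist_pt _) continuous_const
    intro x hx
    exact closure_minimal (fun y hy => (hclaim y hy).le) hcl hx
  refine ⟨closure (M₁ \ C₁), closure (M₁ \ C₁) ∩ C₁, F₁, hclean, ?_, ?_, w₁, ?_, ?_, ?_⟩
  · intro x hx
    exact lt_of_le_of_lt (hM₂ x hx) hη0ε
  · rintro x ⟨hx1, hx2⟩
    have hxI := hM₂ x hx1
    rcases hx2.1 with (hC | hD0) | hD1
    · exact absurd (hCI x hC) (not_lt.2 hxI)
    · have h1 : Metric.infDist x R ≤ Metric.infDist x I := hD0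
      have h2 := hn2 x (hxI.trans hη02) ((h1.trans hxI).trans hη02)
      obtain ⟨y, ⟨⟨t, ht, hty⟩, ⟨-, t', ht', hty'⟩⟩, hxy⟩ :=
        (Metric.infDist_lt_iff hIRne).1 h2
      have h3 : t = t' := ha.inj ⟨ht.1, ht.2.trans hu1⟩ ⟨by linarith [ht'.1], ht'.2⟩
        (hty.trans hty'.symm)
      have h4 : t = u := le_antisymm ht.2 (by rw [h3]; exact ht'.1)
      rw [← hty, h4] at hxy
      exact hxy
    · have h1 : Metric.infDist x (k '' R1) ≤ Metric.infDist x (k '' I1) := hD1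
      obtain ⟨y, hyI, hxy⟩ := (ha.compact le_rfl hu1).exists_infDist_eq_dist ⟨_, hauI⟩ x
      have hxy' : dist x y ≤ η0 := by rw [← hxy]; exact hxI
      have hyA : y ∈ A := hI hyI
      have hkd : dist x (k y) < η0 + e1 := by
        have := dist_triangle x y (k y)
        have := hk y
        linarith
      have h2 : Metric.infDist x (k '' R1) < η0 + e1 := by
        obtain ⟨t, ht, hty⟩ := hyI
        rcases le_total t u1 with h | h
        · have hy1 : y ∈ I1 := ⟨t, ⟨ht.1, h⟩, hty⟩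
          exact lt_of_le_of_lt (h1.trans (Metric.infDist_le_dist_of_mem ⟨y, hy1, rfl⟩)) hkd
        · have hy1 : y ∈ R1 := ⟨hyA, t, ⟨h, ht.2.trans hu1⟩, hty⟩
          exact lt_of_le_of_lt (Metric.infDist_le_dist_of_mem ⟨y, hy1, rfl⟩) hkd
      obtain ⟨_, ⟨z, hz, rfl⟩, hxz⟩ := (Metric.infDist_lt_iff hkR1ne).1 h2
      have h3 : Metric.infDist x R1 ≤ η1 := by
        refine (Metric.infDist_le_dist_of_mem hz).trans ?_
        have h4 := dist_triangle x (k z) z
        have h5 := hk z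
        rw [dist_comm] at h5
        linarith
      have h4 := hn1 x (by linarith) h3
      obtain ⟨y', ⟨⟨t, ht, hty⟩, ⟨-, t', ht', hty'⟩⟩, hxy2⟩ :=
        (Metric.infDist_lt_iff hIR1ne).1 h4
      have h5 : t = t' := ha.inj ⟨ht.1, ht.2.trans hu1⟩ ⟨by linarith [ht'.1], ht'.2⟩
        (hty.trans hty'.symm)
      have h6 := hball t ⟨by rw [h5]; exact ht'.1, ht.2⟩
      rw [hty] at h6
      have h7 := dist_triangle x y' (a u)
      linarith
  · exact subset_closure ⟨hw₁, fun h => hw₁E h.1⟩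
  · exact fun h => hw₁E h.2.1
  · exact hw₁ρ.trans he1ε

end Pool.Agent.Helper499.SA
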