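import Pool.Agent.Helper499.SA.Defs
import Pool.Agent.Helper499.SA.A07

set_option autoImplicit false

namespace Pool.Agent.Helper499.SA

open Set Filter Topology

variable {X : Type} [MetricSpace X]




theorem star [CompactSpace X] (hE : Eff X) (a : ℝ → X) (ha : ArcMap a) (A U V : Set X)
    (hA : A ⊆ a '' Icc 0 1) (hS : Sides A U V) (u : ℝ) (hu0 : 0 < u) (hu1 : u ≤ 1)
    (hT : Thin a u) (g : X ≃ₜ X) (hg : a 0 ∈ g '' A) : a '' Icc 0 u ⊆ g '' A := by
  rintro x ⟨s, hs, rfl⟩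
  by_contra hx
  have hAcl : IsClosed (g '' A) := (hS.image g).closed
  have hopen : (g '' A)ᶜ ∈ 𝓝 (a s) := hAcl.isOpen_compl.mem_nhds hx
  obtain ⟨r0, hr0, hball⟩ := Metric.mem_nhds_iff.1 hopen
  have hI : (a '' Icc 0 u).Nonempty := ⟨a 0, 0, ⟨le_rfl, hu0.le⟩, rfl⟩
  -- general application
  have key : ∀ r ε : ℝ, 0 < r → 2 * r ≤ r0 → 0 < ε → ∃ (G : X ≃ₜ X) (M C : Set X)
      (F : X → Circle) (w : X), Mem M C F ∧
      (∀ y ∈ M, Metric.infDist y (a '' Icc 0 u) < ε) ∧ (∀ y ∈ C, dist y (a u) < ε) ∧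
      w ∈ M ∧ w ∈ G '' A ∧ dist w (a 0) < ε ∧ ∀ y ∈ G '' A, r ≤ dist y (a s) := by
    intro r ε hr hr2 hε
    obtain ⟨δ, hδ, hk⟩ := hE r hr
    obtain ⟨M, C, F, hM, h1, h2, w, hwM, -, hw⟩ := hT (min ε δ) (lt_min hε hδ)
    obtain ⟨k, hk0, hk1⟩ := hk (a 0) w (by
      rw [dist_comm]; exact lt_of_lt_of_le hw (min_le_right _ _))
    refine ⟨g.trans k, M, C, F, w, hM, fun y hy => lt_of_lt_of_le (h1 y hy) (min_le_left _ _),
      fun y hy => lt_of_lt_of_le (h2 y hy) (min_le_left _ _), hwM, ?_,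
      lt_of_lt_of_le hw (min_le_left _ _), ?_⟩
    · obtain ⟨z, hz, hz0⟩ := hg
      exact ⟨z, hz, by simp [hz0, hk0]⟩
    · rintro y ⟨z, hz, rfl⟩
      by_contra hlt
      push Not at hlt
      have h3 : g z ∈ Metric.ball (a s) r0 := by
        rw [Metric.mem_ball]
        have h4 := dist_triangle (g z) (k (g z)) (a s)
        have h5 := hk1 (g z)
        have h6 : dist (k (g z)) (a s) < r := hlt
        linarith
      exact hball h3 ⟨z, hz, rfl⟩
  have hAG : ∀ G : X ≃ₜ X, G '' A ⊆ (G ∘ a) '' Icc 0 1 := by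
    intro G
    rw [image_comp]
    exact image_mono hA
  by_cases hsu : a s = a u
  · obtain ⟨G, M, C, F, w, hM, h1, h2, hwM, hwG, hw, h3⟩ :=
      key (r0 / 2) (r0 / 2) (by positivity) (by linarith) (by positivity)
    refine clopen_false hE (G ∘ a) (ha.comp G) (G '' A) (G '' U) (G '' V) (hAG G)
      (hS.image G) M C F hM (G '' A ∩ M) ∅ ((hS.image G).closed.inter hM.clM) isClosed_empty
      (disjoint_empty _) (by rw [union_empty]) ⟨w, hwG, hwM⟩ ?_
    rw [Set.disjoint_left]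
    rintro y ⟨hy1, -⟩ hyC
    have h4 := h3 y hy1
    have h5 := h2 y hyC
    rw [hsu] at h4
    linarith
  · have hd : 0 < dist (a s) (a u) := dist_pos.2 hsu
    set r : ℝ := min (r0 / 2) (dist (a s) (a u)) with hr
    have hr_pos : 0 < r := lt_min (by positivity) hd
    have hr_1 : 2 * r ≤ r0 := by
      have := min_le_left (r0 / 2) (dist (a s) (a u))
      linarith
    have hr_2 : r ≤ dist (a s) (a u) := min_le_right _ _
    set J₁ : Set X := a '' Icc 0 s \ Metric.ball (a s) (r / 2) with hJ1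
    set J₂ : Set X := a '' Icc s u \ Metric.ball (a s) (r / 2) with hJ2
    have hJ1c : IsCompact J₁ :=
      (ha.compact le_rfl (hs.2.trans hu1)).diff Metric.isOpen_ball
    have hJ2c : IsCompact J₂ := (ha.compact hs.1 hu1).diff Metric.isOpen_ball
    have hdis : Disjoint J₁ J₂ := by
      rw [Set.disjoint_left]
      rintro y ⟨⟨t1, ht1, rfl⟩, hy1⟩ ⟨⟨t2, ht2, h12⟩, -⟩
      have h3 : t2 = t1 := ha.inj ⟨hs.1.trans ht2.1, ht2.2.trans hu1⟩
        ⟨ht1.1, ht1.2.trans (hs.2.trans hu1)⟩ h12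
      have h4 : t1 = s := le_antisymm ht1.2 (h3 ▸ ht2.1)
      apply hy1
      rw [h4]
      exact Metric.mem_ball_self (by positivity)
    obtain ⟨e0, he0, hee⟩ := Metric.exists_pos_forall_lt_edist hJ1c hJ2c.isClosed hdis
    have hee' : ∀ y1 ∈ J₁, ∀ y2 ∈ J₂, (e0 : ℝ) < dist y1 y2 := by
      intro y1 hy1 y2 hy2
      have h3 := hee y1 hy1 y2 hy2
      rw [edist_nndist, ENNReal.coe_lt_coe] at h3
      rw [← coe_nndist]
      exact_mod_cast h3
    have he0' : (0 : ℝ) < e0 := by exact_mod_cast he0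
    have hsep : ∀ y : X, Metric.infDist y J₁ ≤ e0 / 3 → Metric.infDist y J₂ ≤ e0 / 3 →
        J₁.Nonempty → J₂.Nonempty → False := by
      intro y h1 h2 hn1 hn2
      obtain ⟨y1, hy1, h3⟩ := (Metric.infDist_lt_iff hn1).1
        (lt_of_le_of_lt h1 (show (e0 : ℝ) / 3 < e0 / 2 by linarith))
      obtain ⟨y2, hy2, h4⟩ := (Metric.infDist_lt_iff hn2).1
        (lt_of_le_of_lt h2 (show (e0 : ℝ) / 3 < e0 / 2 by linarith))
      have h5 := hee' y1 hy1 y2 hy2
      have h6 := dist_triangle_left y1 y2 y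
      linarith
    obtain ⟨G, M, C, F, w, hM, h1, h2, hwM, hwG, hw, h3⟩ :=
      key r (min (r / 2) (e0 / 3)) hr_pos hr_1 (lt_min (by positivity) (by positivity))
    have hε1 : min (r / 2) ((e0 : ℝ) / 3) ≤ r / 2 := min_le_left _ _
    have hε2 : min (r / 2) ((e0 : ℝ) / 3) ≤ e0 / 3 := min_le_right _ _
    have ha0 : a 0 ∈ J₁ := by
      refine ⟨⟨0, ⟨le_rfl, hs.1⟩, rfl⟩, ?_⟩
      intro hb
      have : a 0 ∈ Metric.ball (a s) r0 := Metric.ball_subset_ball (by linarith) hb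
      exact hball this hg
    have hau : a u ∈ J₂ := by
      refine ⟨⟨u, ⟨hs.2, le_rfl⟩, rfl⟩, ?_⟩
      intro hb
      rw [Metric.mem_ball, dist_comm] at hb
      linarith
    refine clopen_false hE (G ∘ a) (ha.comp G) (G '' A) (G '' U) (G '' V) (hAG G)
      (hS.image G) M C F hM ((G '' A ∩ M) ∩ {y | Metric.infDist y J₁ ≤ e0 / 3})
      ((G '' A ∩ M) ∩ {y | Metric.infDist y J₂ ≤ e0 / 3})
      (((hS.image G).closed.inter hM.clM).inter
        (isClosed_le (Metric.continuous_infDist_pt _) continuous_const))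
      (((hS.image G).closed.inter hM.clM).inter
        (isClosed_le (Metric.continuous_infDist_pt _) continuous_const))
      ?_ ?_ ⟨w, ⟨hwG, hwM⟩, ?_⟩ ?_
    · rw [Set.disjoint_left]
      rintro y ⟨-, hy1⟩ ⟨-, hy2⟩
      exact hsep y hy1 hy2 ⟨_, ha0⟩ ⟨_, hau⟩
    · rw [← inter_union_distrib_left]
      symm
      rw [inter_eq_left]
      rintro y ⟨hyG, hyM⟩
      obtain ⟨y', hy', hyy⟩ := (Metric.infDist_lt_iff hI).1 (h1 y hyM)
      have h4 := h3 y hyG
      have h5 : y' ∉ Metric.ball (a s) (r / 2) := by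
        rw [Metric.mem_ball]
        intro h6
        have h7 := dist_triangle y y' (a s)
        linarith
      obtain ⟨t, ht, rfl⟩ := hy'
      rcases le_total t s with hts | hts
      · left
        have h6 : a t ∈ J₁ := ⟨⟨t, ⟨ht.1, hts⟩, rfl⟩, h5⟩
        show Metric.infDist y J₁ ≤ e0 / 3
        exact (Metric.infDist_le_dist_of_mem h6).trans (by linarith)
      · right
        have h6 : a t ∈ J₂ := ⟨⟨t, ⟨hts, ht.2⟩, rfl⟩, h5⟩
        show Metric.infDist y J₂ ≤ e0 / 3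
        exact (Metric.infDist_le_dist_of_mem h6).trans (by linarith)
    · show Metric.infDist w J₁ ≤ e0 / 3
      exact (Metric.infDist_le_dist_of_mem ha0).trans (by linarith)
    · rw [Set.disjoint_left]
      rintro y ⟨-, hy1⟩ hyC
      have h4 := h2 y hyC
      exact hsep y hy1 ((Metric.infDist_le_dist_of_mem hau).trans (by linarith)) ⟨_, ha0⟩ ⟨_, hau⟩

end Pool.Agent.Helper499.SA
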