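import Pool.Agent.Helper499.SA.Defs

set_option autoImplicit false

namespace Pool.Agent.Helper499.SA

open Set Filter Topology

variable {X : Type} [MetricSpace X]


theorem ff_conn (b : ℝ → X) (hb : ArcMap b) (S : Set X) (hSc : IsPreconnected S)
    (hSb : S ⊆ b '' Icc 0 1) (p q : ℝ) (hp : p ∈ Icc (0 : ℝ) 1) (hq : q ∈ Icc (0 : ℝ) 1)
    (hbp : b p ∈ S) (hbq : b q ∈ S) : b '' Icc p q ⊆ S := by
  set b' : Icc (0 : ℝ) 1 → X := fun t => b t with hb'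
  have hc : Continuous b' := continuousOn_iff_continuous_restrict.1 hb.cont
  have hi : Function.Injective b' := fun s t h => Subtype.ext (hb.inj s.2 t.2 h)
  have hcl : IsClosedMap b' := hc.isClosedMap
  have h1 : IsPreconnected (b' ⁻¹' S) := hSc.preimage_of_isClosedMap hi hcl (by
    intro y hy
    obtain ⟨t, ht, rfl⟩ := hSb hy
    exact ⟨⟨t, ht⟩, rfl⟩)
  have h2 : IsPreconnected (Subtype.val '' (b' ⁻¹' S) : Set ℝ) :=
    h1.image _ continuous_subtype_val.continuousOn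
  have h3 := h2.ordConnected
  rintro _ ⟨t, ht, rfl⟩
  have h4 : t ∈ Subtype.val '' (b' ⁻¹' S) :=
    h3.out ⟨⟨p, hp⟩, hbp, rfl⟩ ⟨⟨q, hq⟩, hbq, rfl⟩ ht
  obtain ⟨⟨t', ht'⟩, h5, rfl⟩ := h4
  exact h5

theorem ff_turn (a b : ℝ → X) (ha : ArcMap a) (hb : ArcMap b) (s1 s β : ℝ) (h0 : 0 ≤ s1)
    (h1 : s1 < s) (h2 : s < β) (h3 : β ≤ 1) (hb0 : b 0 = a s)
    (hsub : a '' Icc s1 β ⊆ b '' Icc 0 1) : False := by
  obtain ⟨p1, hp1, hp1e⟩ := hsub ⟨s1, ⟨le_rfl, by linarith⟩, rfl⟩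
  obtain ⟨p2, hp2, hp2e⟩ := hsub ⟨β, ⟨by linarith, le_rfl⟩, rfl⟩
  have hz : (0 : ℝ) ∈ Icc (0 : ℝ) 1 := ⟨le_rfl, zero_le_one⟩
  have hconn : ∀ x y, 0 ≤ x → y ≤ 1 → IsPreconnected (a '' Icc x y) := fun x y hx hy =>
    isPreconnected_Icc.image _ (ha.cont.mono (Icc_subset_Icc hx hy))
  rcases le_total p1 p2 with h | h
  · have h4 := ff_conn b hb (a '' Icc s β) (hconn s β (by linarith) h3)
      ((image_mono (Icc_subset_Icc_left h1.le)).trans hsub) 0 p2 hz hp2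
      (by rw [hb0]; exact ⟨s, ⟨le_rfl, h2.le⟩, rfl⟩) (by rw [hp2e]; exact ⟨β, ⟨h2.le, le_rfl⟩, rfl⟩)
    obtain ⟨t, ht, hte⟩ := h4 ⟨p1, ⟨hp1.1, h⟩, rfl⟩
    rw [hp1e] at hte
    have h5 := ha.inj (⟨by linarith [ht.1], by linarith [ht.2]⟩ : t ∈ Icc (0 : ℝ) 1)
      (⟨h0, by linarith⟩ : s1 ∈ Icc (0 : ℝ) 1) hte
    rw [h5] at ht
    linarith [ht.1]
  · have h4 := ff_conn b hb (a '' Icc s1 s) (hconn s1 s h0 (by linarith))
      ((image_mono (Icc_subset_Icc_right h2.le)).trans hsub) 0 p1 hz hp1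
      (by rw [hb0]; exact ⟨s, ⟨h1.le, le_rfl⟩, rfl⟩) (by rw [hp1e]; exact ⟨s1, ⟨le_rfl, h1.le⟩, rfl⟩)
    obtain ⟨t, ht, hte⟩ := h4 ⟨p2, ⟨hp2.1, h⟩, rfl⟩
    rw [hp2e] at hte
    have h5 := ha.inj (⟨by linarith [ht.1], by linarith [ht.2]⟩ : t ∈ Icc (0 : ℝ) 1)
      (⟨by linarith, h3⟩ : β ∈ Icc (0 : ℝ) 1) hte
    rw [h5] at ht
    linarith [ht.2]

theorem ff_fact (a b : ℝ → X) (ha : ArcMap a) (hb : ArcMap b) (h : X ≃ₜ X) (u s1 s : ℝ)
    (hu0 : 0 ≤ u) (hu1 : u ≤ 1) (hs1 : 0 ≤ s1) (hs1s : s1 ≤ s) (hs : s ≤ 1)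
    (hsub : h '' (a '' Icc 0 u) ⊆ b '' Icc 0 1) (h0 : h (a 0) = b s1)
    (hfar : h (a u) ∉ b '' Icc 0 s) :
    ∃ β, s < β ∧ β ≤ 1 ∧ b '' Icc s1 β ⊆ h '' (a '' Icc 0 u) := by
  have hmu : h (a u) ∈ h '' (a '' Icc 0 u) := ⟨a u, ⟨u, ⟨hu0, le_rfl⟩, rfl⟩, rfl⟩
  have hm0 : h (a 0) ∈ h '' (a '' Icc 0 u) := ⟨a 0, ⟨0, ⟨le_rfl, hu0⟩, rfl⟩, rfl⟩
  obtain ⟨β, hβ, hβe⟩ := hsub hmu
  have hβs : s < β := by
    by_contra hcon
    push Not at hcon
    exact hfar ⟨β, ⟨hβ.1, hcon⟩, hβe⟩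
  refine ⟨β, hβs, hβ.2, ?_⟩
  refine ff_conn b hb _ ?_ hsub s1 β ⟨hs1, by linarith⟩ hβ ?_ ?_
  · refine IsPreconnected.image ?_ _ h.continuous.continuousOn
    exact isPreconnected_Icc.image _ (ha.cont.mono (Icc_subset_Icc le_rfl hu1))
  · rw [← h0]; exact hm0
  · rw [hβe]; exact hmu

theorem final_false_aux (hE : Eff X) (a : ℝ → X) (ha : ArcMap a) (A : Set X)
    (hA : A ⊆ a '' Icc 0 1) (u : ℝ) (hu0 : 0 < u) (hu1 : u ≤ 1)
    (hI : a '' Icc 0 u ⊆ A)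
    (hstar : ∀ g : X ≃ₜ X, a 0 ∈ g '' A → a '' Icc 0 u ⊆ g '' A) (D δ s : ℝ)
    (hD : D = dist (a 0) (a u)) (hD0 : 0 < D)
    (hδ : ∀ x y : X, dist x y < δ → ∃ h : X ≃ₜ X, h x = y ∧ ∀ z, dist z (h z) < D / 4)
    (hs0 : 0 < s) (hsu : s < u) (hball : ∀ t ∈ Icc 0 s, dist (a t) (a 0) < min (D / 8) (δ / 2))
    (g : X ≃ₜ X) (hg0 : g (a 0) = a s) (hP : ∀ t, 0 ≤ t → t < s → a t ∉ g '' A)
    (U V : Set X) (hS : Sides A U V) (hPU : a '' Ico 0 s ⊆ g '' U) : False := by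
  have hstar' : ∀ g h : X ≃ₜ X, h (a 0) ∈ g '' A → h '' (a '' Icc 0 u) ⊆ g '' A := by
    intro g h hm
    have h1 := hstar (g.trans h.symm) (by
      obtain ⟨y, hy, hye⟩ := hm
      refine ⟨y, hy, ?_⟩
      show h.symm (g y) = a 0
      rw [hye, h.symm_apply_apply])
    rintro _ ⟨x, hx, rfl⟩
    obtain ⟨y, hy, hye⟩ := h1 hx
    refine ⟨y, hy, ?_⟩
    have h2 : h.symm (g y) = x := hye
    rw [← h2, h.apply_symm_apply]
  have hSg := hS.image g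
  -- `a s` is in the closure of `g '' V`
  have hcl : a s ∈ closure (g '' V) := by
    rw [← hg0]
    exact hSg.accV ⟨a 0, hI ⟨0, ⟨le_rfl, hu0.le⟩, rfl⟩, rfl⟩
  have ha0U : a 0 ∈ g '' U := hPU ⟨0, ⟨le_rfl, hs0⟩, rfl⟩
  obtain ⟨ρ, hρ, hρU⟩ := Metric.isOpen_iff.1 hSg.opU _ ha0U
  have hδ0 : 0 < δ := by
    have h1 := hball 0 ⟨le_rfl, hs0.le⟩
    rw [dist_self] at h1
    have h2 := h1.trans_le (min_le_right _ _)
    linarith
  obtain ⟨η, hη, hηE⟩ := hE (min ρ (min (D / 8) (δ / 2))) (by positivity)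
  obtain ⟨z, hzV, hzd⟩ := Metric.mem_closure_iff.1 hcl η hη
  obtain ⟨k, hk, hkd⟩ := hηE (a s) z hzd
  have hzA : z ∉ g '' A := by
    intro h1
    have h2 : z ∈ (g '' A)ᶜ := by
      rw [← hSg.compl]
      exact Or.inr hzV
    exact h2 h1
  have hkA : ∀ t, 0 ≤ t → t ≤ s → k (a t) ∉ g '' A := by
    intro s1 h0 h1 hmem
    have hd1 := hball s1 ⟨h0, h1⟩
    have hd2 := hkd (a s1)
    have hd3 : dist (a 0) (k (a s1)) < δ := by
      have h2 := dist_triangle (a 0) (a s1) (k (a s1))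
      rw [dist_comm (a 0) (a s1)] at h2
      have h3 := hd1.trans_le (min_le_right _ _)
      have h4 := hd2.trans_le ((min_le_right _ _).trans (min_le_right _ _))
      linarith
    obtain ⟨h, hh0, hhd⟩ := hδ (a 0) (k (a s1)) hd3
    have hI1 : h '' (a '' Icc 0 u) ⊆ g '' A := hstar' g h (by rw [hh0]; exact hmem)
    have hI2 : h '' (a '' Icc 0 u) ⊆ k '' A := hstar' k h (by
      rw [hh0]
      exact ⟨a s1, hI ⟨s1, ⟨h0, by linarith⟩, rfl⟩, rfl⟩)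
    obtain ⟨β, hβ1, hβ2, hβ3⟩ := ff_fact a (k ∘ a) ha (ha.comp k) h u s1 s hu0.le hu1 h0 h1
      (by linarith) (hI2.trans (by rw [image_comp]; exact image_mono hA)) hh0 (by
        rintro ⟨t, ht, hte⟩
        have h5 : k (a t) = h (a u) := hte
        have h6 := hball t ht
        have h7 := hkd (a t)
        have h8 := hhd (a u)
        have h9 := h6.trans_le (min_le_left _ _)
        have h10 := h7.trans_le ((min_le_right _ _).trans (min_le_left _ _))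
        rw [h5] at h10
        have h11 := dist_triangle4 (a 0) (a t) (h (a u)) (a u)
        rw [dist_comm (a 0) (a t), dist_comm (h (a u)) (a u), ← hD] at h11
        linarith)
    apply hzA
    apply hI1
    apply hβ3
    exact ⟨s, ⟨h1, hβ1.le⟩, hk⟩
  -- the connected set `k (a [0,s])`
  have hconn : IsPreconnected ((k ∘ a) '' Icc 0 s) :=
    isPreconnected_Icc.image _ ((ha.comp k).cont.mono (Icc_subset_Icc le_rfl (by linarith)))
  have hsubUV : (k ∘ a) '' Icc 0 s ⊆ g '' U ∪ g '' V := by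
    rintro _ ⟨t, ht, rfl⟩
    rw [hSg.compl]
    exact hkA t ht.1 ht.2
  have h1 : ((k ∘ a) '' Icc 0 s ∩ g '' U).Nonempty := by
    refine ⟨k (a 0), ⟨0, ⟨le_rfl, hs0.le⟩, rfl⟩, hρU ?_⟩
    rw [Metric.mem_ball, dist_comm]
    exact (hkd (a 0)).trans_le (min_le_left _ _)
  have h2 : ((k ∘ a) '' Icc 0 s ∩ g '' V).Nonempty :=
    ⟨z, ⟨s, ⟨hs0.le, le_rfl⟩, hk⟩, hzV⟩
  obtain ⟨y, -, hy1, hy2⟩ := hconn _ _ hSg.opU hSg.opV hsubUV h1 h2
  exact Set.disjoint_left.1 hSg.disj hy1 hy2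

theorem final_false [CompactSpace X] (hE : Eff X) (a : ℝ → X) (ha : ArcMap a) (A U V : Set X)
    (hA : A ⊆ a '' Icc 0 1) (hS : Sides A U V) (u : ℝ) (hu0 : 0 < u) (hu1 : u ≤ 1)
    (hI : a '' Icc 0 u ⊆ A)
    (hstar : ∀ g : X ≃ₜ X, a 0 ∈ g '' A → a '' Icc 0 u ⊆ g '' A) : False := by
  have hstar' : ∀ g h : X ≃ₜ X, h (a 0) ∈ g '' A → h '' (a '' Icc 0 u) ⊆ g '' A := by
    intro g h hm
    have h1 := hstar (g.trans h.symm) (by
      obtain ⟨y, hy, hye⟩ := hm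
      refine ⟨y, hy, ?_⟩
      show h.symm (g y) = a 0
      rw [hye, h.symm_apply_apply])
    rintro _ ⟨x, hx, rfl⟩
    obtain ⟨y, hy, hye⟩ := h1 hx
    refine ⟨y, hy, ?_⟩
    have h2 : h.symm (g y) = x := hye
    rw [← h2, h.apply_symm_apply]
  have hD0 : 0 < dist (a 0) (a u) := by
    rw [dist_pos]
    intro h
    have := ha.inj (⟨le_rfl, zero_le_one⟩ : (0 : ℝ) ∈ Icc (0 : ℝ) 1)
      (⟨hu0.le, hu1⟩ : u ∈ Icc (0 : ℝ) 1) h
    linarith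
  obtain ⟨D, hD⟩ : ∃ D, D = dist (a 0) (a u) := ⟨_, rfl⟩
  rw [← hD] at hD0
  obtain ⟨δ, hδ0, hδ⟩ := hE (D / 4) (by positivity)
  have hr : 0 < min (D / 8) (δ / 2) := by positivity
  obtain ⟨η, hη, hηa⟩ := Metric.continuousWithinAt_iff.1
    (ha.cont 0 ⟨le_rfl, zero_le_one⟩) _ hr
  obtain ⟨s, hs⟩ : ∃ s, s = min (η / 2) (u / 2) := ⟨_, rfl⟩
  have hs0 : 0 < s := by rw [hs]; positivity
  have hsu : s < u := by
    have : s ≤ u / 2 := by rw [hs]; exact min_le_right _ _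
    linarith
  have hsη : s < η := by
    have : s ≤ η / 2 := by rw [hs]; exact min_le_left _ _
    linarith
  have hball : ∀ t ∈ Icc 0 s, dist (a t) (a 0) < min (D / 8) (δ / 2) := by
    intro t ht
    refine hηa (⟨ht.1, by linarith [ht.2]⟩ : t ∈ Icc (0 : ℝ) 1) ?_
    rw [Real.dist_eq, sub_zero, abs_of_nonneg ht.1]
    linarith [ht.2]
  obtain ⟨g, hg0, hgd⟩ := hδ (a 0) (a s) (by
    rw [dist_comm]
    have := (hball s ⟨hs0.le, le_rfl⟩).trans_le (min_le_right _ _)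
    linarith)
  have hP : ∀ t, 0 ≤ t → t < s → a t ∉ g '' A := by
    intro s1 h0 h1 hmem
    have hd1 := hball s1 ⟨h0, h1.le⟩
    obtain ⟨h, hh0, hhd⟩ := hδ (a 0) (a s1) (by
      rw [dist_comm]
      have := hd1.trans_le (min_le_right _ _)
      linarith)
    have hI1 : h '' (a '' Icc 0 u) ⊆ g '' A := hstar' g h (by rw [hh0]; exact hmem)
    have hI2 : h '' (a '' Icc 0 u) ⊆ A := by
      have h3 := hstar' (Homeomorph.refl X) h (by
        rw [hh0]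
        exact ⟨a s1, hI ⟨s1, ⟨h0, by linarith⟩, rfl⟩, rfl⟩)
      intro y hy
      obtain ⟨y', hy', hye⟩ := h3 hy
      have h4 : y' = y := hye
      rwa [← h4]
    obtain ⟨β, hβ1, hβ2, hβ3⟩ := ff_fact a a ha ha h u s1 s hu0.le hu1 h0 h1.le
      (by linarith) (hI2.trans hA) hh0 (by
        rintro ⟨t, ht, hte⟩
        have h6 := (hball t ht).trans_le (min_le_left _ _)
        have h8 := hhd (a u)
        rw [hte] at h6
        have h11 := dist_triangle (a 0) (h (a u)) (a u)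
        rw [dist_comm (a 0) (h (a u)), dist_comm (h (a u)) (a u), ← hD] at h11
        linarith)
    refine ff_turn a (g ∘ a) ha (ha.comp g) s1 s β h0 h1 hβ1 hβ2 hg0 ?_
    rw [image_comp]
    exact (hβ3.trans hI1).trans (image_mono hA)
  have hSg := hS.image g
  have hconn : IsPreconnected (a '' Ico 0 s) :=
    isPreconnected_Ico.image _ (ha.cont.mono (fun t ht => ⟨ht.1, by linarith [ht.2]⟩))
  have hsubUV : a '' Ico 0 s ⊆ g '' U ∪ g '' V := by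
    rintro _ ⟨t, ht, rfl⟩
    rw [hSg.compl]
    exact hP t ht.1 ht.2
  rcases hconn.subset_or_subset hSg.opU hSg.opV hSg.disj hsubUV with h | h
  · exact final_false_aux hE a ha A hA u hu0 hu1 hI hstar D δ s hD hD0 hδ hs0 hsu hball g hg0
      hP U V hS h
  · exact final_false_aux hE a ha A hA u hu0 hu1 hI hstar D δ s hD hD0 hδ hs0 hsu hball g hg0
      hP V U hS.symm h

end Pool.Agent.Helper499.SA
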