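import Pool.Agent.Helper499.SA.Defs

set_option autoImplicit false

namespace Pool.Agent.Helper499.SA

open Set Filter Topology

variable {X : Type} [MetricSpace X]


theorem comp_closed_in [LocallyConnectedSpace X] {O : Set X} (hO : IsOpen O) (x z : X)
    (hz : z ∈ closure (connectedComponentIn O x)) (hzO : z ∈ O) :
    z ∈ connectedComponentIn O x := by
  have hop : IsOpen (connectedComponentIn O z) := hO.connectedComponentIn
  have hmem : z ∈ connectedComponentIn O z := mem_connectedComponentIn hzO
  obtain ⟨w, hw1, hw2⟩ := mem_closure_iff.1 hz _ hop hmem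
  have e1 := connectedComponentIn_eq hw1
  have e2 := connectedComponentIn_eq hw2
  rw [e2, ← e1]
  exact hmem


theorem exists_sides [CompactSpace X] [ConnectedSpace X] [LocallyConnectedSpace X] (S : Set X)
    (hS : IsClosed S) (hdis : ¬ IsPreconnected Sᶜ) :
    ∃ A U V, A ⊆ S ∧ A.Nonempty ∧ Sides A U V := by
  have hSo : IsOpen Sᶜ := hS.isOpen_compl
  unfold IsPreconnected at hdis
  push Not at hdis
  obtain ⟨u, v, hu, hv, huv, ⟨x0, hx0S, hx0u⟩, ⟨y0, hy0S, hy0v⟩, hem⟩ := hdis
  set U := connectedComponentIn Sᶜ x0 with hUdef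
  have hUo : IsOpen U := hSo.connectedComponentIn
  have hUS : U ⊆ Sᶜ := connectedComponentIn_subset _ _
  have hx0U : x0 ∈ U := mem_connectedComponentIn hx0S
  have hy0U : y0 ∉ U := by
    intro hy
    have hpre : IsPreconnected U := isPreconnected_connectedComponentIn
    obtain ⟨w, hw1, hw2⟩ := hpre u v hu hv (hUS.trans huv) ⟨x0, hx0U, hx0u⟩ ⟨y0, hy, hy0v⟩
    have : w ∈ Sᶜ ∩ (u ∩ v) := ⟨hUS hw1, hw2⟩
    rw [hem] at this
    exact this
  have hy0c : y0 ∈ (closure U)ᶜ := fun hy => hy0U (comp_closed_in hSo x0 y0 hy hy0S)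
  have hOo : IsOpen (closure U)ᶜ := isClosed_closure.isOpen_compl
  set V := connectedComponentIn (closure U)ᶜ y0 with hVdef
  have hVo : IsOpen V := hOo.connectedComponentIn
  have hVsub : V ⊆ (closure U)ᶜ := connectedComponentIn_subset _ _
  have hy0V : y0 ∈ V := mem_connectedComponentIn hy0c
  have hdisj : Disjoint U (closure V) := by
    have h1 : Disjoint U V := by
      rw [Set.disjoint_left]
      intro z hz hz'
      exact hVsub hz' (subset_closure hz)
    exact h1.closure_right hUo
  have hAU : frontier V ⊆ closure U := by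
    intro z hz
    rw [hVo.frontier_eq] at hz
    by_contra hzU
    exact hz.2 (comp_closed_in hOo y0 z hz.1 hzU)
  have hAS : frontier V ⊆ S := by
    intro z hz
    by_contra hzS
    have h1 : z ∈ U := comp_closed_in hSo x0 z (hAU hz) hzS
    exact Set.disjoint_left.1 hdisj h1 (frontier_subset_closure hz)
  refine ⟨frontier V, (closure V)ᶜ, V, hAS, ?_, ?_⟩
  · rw [Set.nonempty_iff_ne_empty]
    intro he
    have hcl : IsClopen V := isClopen_iff_frontier_eq_empty.2 he
    rcases isClopen_iff.1 hcl with h | h
    · rw [h] at hy0V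
      exact hy0V
    · have : x0 ∈ V := by rw [h]; exact Set.mem_univ _
      exact hVsub this (subset_closure hx0U)
  · refine ⟨isClosed_closure.isOpen_compl, hVo, ?_, ?_, ?_, ?_⟩
    · rw [Set.disjoint_left]
      intro z hz hz'
      exact hz (subset_closure hz')
    · rw [hVo.frontier_eq]
      ext z
      simp only [Set.mem_union, Set.mem_compl_iff, Set.mem_sdiff]
      constructor
      · rintro (h | h) ⟨h1, h2⟩
        · exact h h1
        · exact h2 h
      · intro h
        by_cases hz : z ∈ V
        · exact Or.inr hz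
        · exact Or.inl (fun h1 => h ⟨h1, hz⟩)
    · refine hAU.trans (closure_mono ?_)
      intro z hz hz'
      exact Set.disjoint_left.1 hdisj hz hz'
    · exact frontier_subset_closure

end Pool.Agent.Helper499.SA
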