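import Pool.Agent.Helper499.SA.Defs

set_option autoImplicit false

namespace Pool.Agent.Helper499.SA

open Set Filter Topology

variable {X : Type} [MetricSpace X]


theorem reparam (a : ℝ → X) (ha : ArcMap a) (A : Set X) (hA : A ⊆ a '' Icc 0 1)
    (hcl : IsClosed A) (hne : A.Nonempty) :
    ∃ a' : ℝ → X, ArcMap a' ∧ A ⊆ a' '' Icc 0 1 ∧ a' 0 ∈ A := by
  have hcomp : IsCompact (Icc (0 : ℝ) 1 ∩ a ⁻¹' A) :=
    isCompact_Icc.of_isClosed_subset
      (ha.cont.preimage_isClosed_of_isClosed isClosed_Icc hcl) inter_subset_left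
  have hTne : (Icc (0 : ℝ) 1 ∩ a ⁻¹' A).Nonempty := by
    obtain ⟨x, hx⟩ := hne
    obtain ⟨s, hs, rfl⟩ := hA hx
    exact ⟨s, hs, hx⟩
  obtain ⟨t0, ⟨ht0, ht0A⟩, hmin⟩ := hcomp.exists_isLeast hTne
  rcases eq_or_lt_of_le ht0.2 with h1 | h1
  · refine ⟨fun t => a (1 - t), ⟨?_, ?_⟩, ?_, ?_⟩
    · apply ha.cont.comp (continuous_const.sub continuous_id).continuousOn
      intro t ht
      exact ⟨by simpa using ht.2, by simpa using ht.1⟩
    · intro s hs t ht hst
      have := ha.inj ⟨by linarith [hs.2], by linarith [hs.1]⟩ ⟨by linarith [ht.2], by linarith [ht.1]⟩ hst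
      linarith
    · intro x hx
      obtain ⟨s, hs, rfl⟩ := hA hx
      refine ⟨1 - s, ⟨by linarith [hs.2], by linarith [hs.1]⟩, ?_⟩
      simp
    · simp only [sub_zero]
      rw [h1] at ht0A
      exact ht0A
  · have h0 : 0 < 1 - t0 := by linarith
    have hmaps : ∀ t ∈ Icc (0 : ℝ) 1, t0 + t * (1 - t0) ∈ Icc (0 : ℝ) 1 := by
      intro t ht
      have h3 : 0 ≤ t * (1 - t0) := mul_nonneg ht.1 h0.le
      have h4 : t * (1 - t0) ≤ 1 * (1 - t0) := mul_le_mul_of_nonneg_right ht.2 h0.le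
      exact ⟨by linarith [ht0.1], by linarith⟩
    refine ⟨fun t => a (t0 + t * (1 - t0)), ⟨?_, ?_⟩, ?_, ?_⟩
    · apply ha.cont.comp _ hmaps
      exact (continuous_const.add (continuous_id.mul continuous_const)).continuousOn
    · intro s hs t ht hst
      have h5 := ha.inj (hmaps s hs) (hmaps t ht) hst
      have h6 : s * (1 - t0) = t * (1 - t0) := by linarith
      exact mul_right_cancel₀ h0.ne' h6
    · intro x hx
      obtain ⟨s, hs, rfl⟩ := hA hx
      have h5 : t0 ≤ s := hmin ⟨hs, hx⟩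
      refine ⟨(s - t0) / (1 - t0), ⟨div_nonneg (by linarith) h0.le, ?_⟩, ?_⟩
      · rw [div_le_one h0]; linarith [hs.2]
      · show a (t0 + (s - t0) / (1 - t0) * (1 - t0)) = a s
        rw [div_mul_cancel₀ _ h0.ne']
        congr 1; ring
    · show a (t0 + 0 * (1 - t0)) ∈ A
      rw [zero_mul, add_zero]
      exact ht0A

end Pool.Agent.Helper499.SA
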