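import Pool.Agent.Helper499.SA.Defs

set_option autoImplicit false

namespace Pool.Agent.Helper499.SA

open Set Filter Topology

variable {X : Type} [MetricSpace X]


theorem avoid_zero_ind : Topology.IsInducing (fun z : Circle => (z : ℂ)) :=
  Topology.IsInducing.subtypeVal

theorem avoid_zero [CompactSpace X]
    (hE : ∀ (C : Set X) (F : X → Circle), IsClosed C → ContinuousOn F C → Ext F C univ)
    (Y : Set X) (hY : IsClosed Y) (ψ : X → ℂ) (hψ : ContinuousOn ψ Y) (c : ℝ) (hc : 0 < c) :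
    ∃ ψ' : X → ℂ, ContinuousOn ψ' Y ∧ (∀ x ∈ Y, c ≤ ‖ψ x‖ → ψ' x = ψ x) ∧
      (∀ x ∈ Y, ‖ψ x‖ ≤ c → ‖ψ' x‖ = c) := by
  classical
  have hC : IsClosed (Y ∩ {x | c ≤ ‖ψ x‖}) :=
    hψ.norm.preimage_isClosed_of_isClosed hY isClosed_Ici
  have hD : IsClosed (Y ∩ {x | ‖ψ x‖ ≤ c}) :=
    hψ.norm.preimage_isClosed_of_isClosed hY isClosed_Iic
  obtain ⟨F, hF⟩ : ∃ F : X → Circle, ∀ x, ψ x ≠ 0 → ((F x : Circle) : ℂ) = ψ x / (‖ψ x‖ : ℂ) := by
    have key : ∀ x, ∃ w : Circle, ψ x ≠ 0 → (w : ℂ) = ψ x / (‖ψ x‖ : ℂ) := by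
      intro x
      by_cases h : ψ x = 0
      · exact ⟨1, fun h' => absurd h h'⟩
      · exact ⟨⟨ψ x / (‖ψ x‖ : ℂ), mem_sphere_zero_iff_norm.2 (by
          rw [norm_div, Complex.norm_real, norm_norm, div_self (norm_ne_zero_iff.mpr h)])⟩,
          fun _ => rfl⟩
    choose F hF using key
    exact ⟨F, hF⟩
  have hne : ∀ x, c ≤ ‖ψ x‖ → ψ x ≠ 0 := by
    intro x hx h0
    rw [h0, norm_zero] at hx
    linarith
  have hFc : ContinuousOn F (Y ∩ {x | c ≤ ‖ψ x‖}) := by
    rw [avoid_zero_ind.continuousOn_iff]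
    have h1 : ContinuousOn (fun x => ψ x / (‖ψ x‖ : ℂ)) (Y ∩ {x | c ≤ ‖ψ x‖}) := by
      apply ContinuousOn.div (hψ.mono inter_subset_left)
      · exact Complex.continuous_ofReal.comp_continuousOn (hψ.norm.mono inter_subset_left)
      · intro x hx h0
        have : ‖ψ x‖ = 0 := by exact_mod_cast h0
        exact hne x hx.2 (norm_eq_zero.mp this)
    exact h1.congr fun x hx => hF x (hne x hx.2)
  obtain ⟨G, hG, hGF⟩ := hE _ F hC hFc
  refine ⟨fun x => if c ≤ ‖ψ x‖ then ψ x else (c : ℂ) * ((G x : Circle) : ℂ), ?_, ?_, ?_⟩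
  · have hU : Y = (Y ∩ {x | c ≤ ‖ψ x‖}) ∪ (Y ∩ {x | ‖ψ x‖ ≤ c}) := by
      ext x
      constructor
      · intro hx
        rcases le_total c ‖ψ x‖ with h | h
        · exact Or.inl ⟨hx, h⟩
        · exact Or.inr ⟨hx, h⟩
      · rintro (h | h)
        · exact h.1
        · exact h.1
    rw [hU]
    apply ContinuousOn.union_of_isClosed _ _ hC hD
    · exact (hψ.mono inter_subset_left).congr fun x hx => if_pos hx.2
    · have h2 : ContinuousOn (fun x => (c : ℂ) * ((G x : Circle) : ℂ)) (Y ∩ {x | ‖ψ x‖ ≤ c}) := by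
        apply ContinuousOn.mul continuousOn_const
        exact (avoid_zero_ind.continuousOn_iff.mp hG).mono (subset_univ _)
      refine h2.congr fun x hx => ?_
      by_cases h3 : c ≤ ‖ψ x‖
      · simp only [h3, if_true]
        have h4 : ‖ψ x‖ = c := le_antisymm hx.2 h3
        rw [hGF ⟨hx.1, h3⟩, hF x (hne x h3), h4]
        rw [mul_div_cancel₀]
        exact_mod_cast hc.ne'
      · simp only [h3, if_false]
  · intro x _ hx
    simp only [hx, if_true]
  · intro x _ hx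
    by_cases h3 : c ≤ ‖ψ x‖
    · simp only [h3, if_true]
      exact le_antisymm hx h3
    · simp only [h3, if_false]
      rw [norm_mul, Circle.norm_coe, mul_one, Complex.norm_real, Real.norm_eq_abs, abs_of_pos hc]

end Pool.Agent.Helper499.SA
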