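import Pool.Agent.Helper499.SA.Defs
import Pool.Agent.Helper499.SA.A17

set_option autoImplicit false

namespace Pool.Agent.Helper499.SA

open Set Filter Topology

variable {X : Type} [MetricSpace X]




theorem push [CompactSpace X]
    (hE : ∀ (C : Set X) (F : X → Circle), IsClosed C → ContinuousOn F C → Ext F C univ)
    {n : ℕ} (φ : Fin n → X → ℝ) (hφ : ∀ i, Continuous (φ i)) (h0 : ∀ i x, 0 ≤ φ i x)
    (h1 : ∀ x, ∑ i, φ i x = 1) (σ : Finset (Fin n)) (hσ : 3 ≤ σ.card)
    (hmax : ∀ x, (Finset.univ.filter (fun i => φ i x ≠ 0)).card ≤ σ.card) :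
    ∃ φ' : Fin n → X → ℝ, (∀ i, Continuous (φ' i)) ∧ (∀ i x, 0 ≤ φ' i x) ∧
      (∀ x, ∑ i, φ' i x = 1) ∧ (∀ i x, φ i x = 0 → φ' i x = 0) ∧
      ∀ x, Finset.univ.filter (fun i => φ' i x ≠ 0) ≠ σ := by
  classical
  obtain ⟨i1, i2, i3, m1, m2, m3, h12, h13, h23⟩ := Finset.two_lt_card_iff.mp
    (show 2 < σ.card by omega)
  have hne : σ.Nonempty := ⟨i1, m1⟩
  set N : ℝ := (σ.card : ℝ) with hNdef
  have hN3 : (3 : ℝ) ≤ N := by rw [hNdef]; exact_mod_cast hσ
  have hNpos : 0 < N := by linarith
  set c : ℝ := 1 / (8 * N) with hc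
  have hcpos : 0 < c := by positivity
  have h8c : 1 / N = 8 * c := by rw [hc]; field_simp
  set Y : Set X := {x | ∀ j, j ∉ σ → φ j x = 0} with hY
  have hYc : IsClosed Y := by
    rw [hY]
    simp only [Set.setOf_forall]
    exact isClosed_iInter fun j => isClosed_iInter fun _ => isClosed_eq (hφ j) continuous_const
  -- sum over σ on Y
  have hsumY : ∀ x ∈ Y, ∑ i ∈ σ, φ i x = 1 := by
    intro x hx
    rw [← h1 x]
    exact Finset.sum_subset (Finset.subset_univ σ) (fun j _ hj => hx j hj)
  set v : Fin n → X → ℝ := fun i x => φ i x - 1 / N with hv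
  have hvc : ∀ i, Continuous (v i) := fun i => (hφ i).sub continuous_const
  set R : Finset (Fin n) := ((σ.erase i1).erase i2).erase i3 with hR
  have hσR : σ = insert i1 (insert i2 (insert i3 R)) := by
    ext j
    simp only [hR, Finset.mem_insert, Finset.mem_erase]
    constructor
    · intro hj
      by_cases e1 : j = i1
      · exact Or.inl e1
      · by_cases e2 : j = i2
        · exact Or.inr (Or.inl e2)
        · by_cases e3 : j = i3
          · exact Or.inr (Or.inr (Or.inl e3))
          · exact Or.inr (Or.inr (Or.inr ⟨e3, e2, e1, hj⟩))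
    · rintro (h | h | h | h)
      · rw [h]; exact m1
      · rw [h]; exact m2
      · rw [h]; exact m3
      · exact h.2.2.2
  have n3 : i3 ∉ R := by simp [hR]
  have n2 : i2 ∉ insert i3 R := by simp [hR, h23]
  have n1 : i1 ∉ insert i2 (insert i3 R) := by simp [hR, h12, h13]
  have hsplit : ∀ g : Fin n → ℝ, ∑ i ∈ σ, g i = g i1 + (g i2 + (g i3 + ∑ i ∈ R, g i)) := by
    intro g
    rw [hσR, Finset.sum_insert n1, Finset.sum_insert n2, Finset.sum_insert n3]
  set rest : X → ℝ := fun x => ∑ i ∈ R, |v i x| with hrest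
  have hrestc : Continuous rest := continuous_finsetSum _ fun i _ => (hvc i).abs
  have hrest0 : ∀ x, 0 ≤ rest x := fun x => Finset.sum_nonneg fun i _ => abs_nonneg _
  set κ : X → ℝ := fun x => max 0 (1 - rest x / c) with hκ
  have hκc : Continuous κ := continuous_const.max (continuous_const.sub (hrestc.div_const c))
  have hκ0 : ∀ x, 0 ≤ κ x := fun x => le_max_left _ _
  have hκ1 : ∀ x, κ x ≤ 1 := by
    intro x
    apply max_le zero_le_one
    have := div_nonneg (hrest0 x) hcpos.le
    linarith
  set ψ : X → ℂ := fun x => ((v i1 x : ℝ) : ℂ) + ((v i2 x : ℝ) : ℂ) * Complex.I with hψ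
  have hψc : Continuous ψ :=
    (Complex.continuous_ofReal.comp (hvc i1)).add
      ((Complex.continuous_ofReal.comp (hvc i2)).mul continuous_const)
  have hψre : ∀ x, (ψ x).re = v i1 x := by intro x; simp [hψ]
  have hψim : ∀ x, (ψ x).im = v i2 x := by intro x; simp [hψ]
  obtain ⟨ψ', hψ'c, hψ'eq, hψ'n⟩ := avoid_zero hE Y hYc ψ hψc.continuousOn c hcpos
  have hψ'ne : ∀ x ∈ Y, ψ' x ≠ 0 := by
    intro x hx h0'
    rcases le_total c ‖ψ x‖ with h | h
    · have := hψ'eq x hx h
      rw [h0'] at this
      rw [← this, norm_zero] at h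
      linarith
    · have := hψ'n x hx h
      rw [h0', norm_zero] at this
      linarith
  set d : X → ℂ := fun x => ((κ x : ℝ) : ℂ) * (ψ' x - ψ x) with hd
  have hdc : ContinuousOn d Y :=
    ((Complex.continuous_ofReal.comp hκc).continuousOn).mul (hψ'c.sub hψc.continuousOn)
  set e : Fin n → X → ℝ := fun i x => if i = i1 then (d x).re else if i = i2 then (d x).im
    else if i = i3 then -(d x).re - (d x).im else 0 with he
  have he1 : ∀ x, e i1 x = (d x).re := by intro x; simp [he]
  have he2 : ∀ x, e i2 x = (d x).im := by intro x; simp [he, h12.symm]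
  have he3 : ∀ x, e i3 x = -(d x).re - (d x).im := by intro x; simp [he, h13.symm, h23.symm]
  have heR : ∀ x, ∀ i ∈ R, e i x = 0 := by
    intro x i hi
    simp only [hR, Finset.mem_erase] at hi
    simp [he, hi.1, hi.2.1, hi.2.2.1]
  have hedc : ∀ i, ContinuousOn (e i) Y := by
    intro i
    have hre : ContinuousOn (fun x => (d x).re) Y := Complex.continuous_re.comp_continuousOn hdc
    have him : ContinuousOn (fun x => (d x).im) Y := Complex.continuous_im.comp_continuousOn hdc
    simp only [he]
    split_ifs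
    · exact hre
    · exact him
    · exact hre.neg.sub him
    · exact continuousOn_const
  have hesum : ∀ x, ∑ i ∈ σ, e i x = 0 := by
    intro x
    rw [hsplit, he1, he2, he3, Finset.sum_eq_zero (heR x)]
    ring
  have hed0 : ∀ x, d x = 0 → ∀ i, e i x = 0 := by
    intro x hx i
    simp [he, hx]
  set t : Fin n → X → ℝ := fun i x => φ i x + e i x with ht
  have htc : ∀ i, ContinuousOn (t i) Y := fun i => (hφ i).continuousOn.add (hedc i)
  have htsum : ∀ x ∈ Y, ∑ i ∈ σ, t i x = 1 := by
    intro x hx
    simp only [ht]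
    rw [Finset.sum_add_distrib, hsumY x hx, hesum x, add_zero]
  -- where the modification happens everything is positive
  have hA : ∀ x ∈ Y, d x ≠ 0 → ∀ i ∈ σ, 0 < φ i x ∧ 0 < t i x := by
    intro x hx hdx
    have hκx : κ x ≠ 0 := by
      intro h
      apply hdx
      simp [hd, h]
    have hψx : ψ' x - ψ x ≠ 0 := by
      intro h
      apply hdx
      simp [hd, h]
    have hψlt : ‖ψ x‖ < c := by
      by_contra hcon
      push Not at hcon
      exact hψx (by rw [hψ'eq x hx hcon, sub_self])
    have hψ'x := hψ'n x hx hψlt.le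
    have hrx : rest x < c := by
      by_contra hcon
      push Not at hcon
      apply hκx
      apply max_eq_left
      have : 1 ≤ rest x / c := (one_le_div hcpos).mpr hcon
      linarith
    have hdn : ‖d x‖ ≤ 2 * c := by
      simp only [hd]
      rw [norm_mul, Complex.norm_real, Real.norm_eq_abs, abs_of_nonneg (hκ0 x)]
      have e1 : ‖ψ' x - ψ x‖ ≤ 2 * c := by
        refine (norm_sub_le _ _).trans ?_
        rw [hψ'x]; linarith
      calc κ x * ‖ψ' x - ψ x‖ ≤ 1 * ‖ψ' x - ψ x‖ :=
            mul_le_mul_of_nonneg_right (hκ1 x) (norm_nonneg _)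
        _ ≤ 2 * c := by rw [one_mul]; exact e1
    have hdre : |(d x).re| ≤ 2 * c := (Complex.abs_re_le_norm _).trans hdn
    have hdim : |(d x).im| ≤ 2 * c := (Complex.abs_im_le_norm _).trans hdn
    have hv1 : |v i1 x| < c := by
      rw [← hψre]; exact (Complex.abs_re_le_norm _).trans_lt hψlt
    have hv2 : |v i2 x| < c := by
      rw [← hψim]; exact (Complex.abs_im_le_norm _).trans_lt hψlt
    have hvR : ∀ i ∈ R, |v i x| < c := by
      intro i hi
      refine lt_of_le_of_lt ?_ hrx
      exact Finset.single_le_sum (f := fun i => |v i x|) (fun j _ => abs_nonneg _) hi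
    have hvsum : ∑ i ∈ σ, v i x = 0 := by
      simp only [hv]
      rw [Finset.sum_sub_distrib, hsumY x hx, Finset.sum_const, nsmul_eq_mul, ← hNdef]
      field_simp
      ring
    have hvRs : |∑ i ∈ R, v i x| < c := (Finset.abs_sum_le_sum_abs _ _).trans_lt hrx
    have hv3 : |v i3 x| < 3 * c := by
      rw [hsplit] at hvsum
      have : v i3 x = -(v i1 x + v i2 x + ∑ i ∈ R, v i x) := by linarith
      rw [this, abs_neg]
      rw [abs_lt] at hv1 hv2 hvRs ⊢
      constructor <;> linarith [hv1.1, hv1.2, hv2.1, hv2.2, hvRs.1, hvRs.2]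
    have hvall : ∀ i ∈ σ, |v i x| < 3 * c := by
      intro i hi
      rw [hσR] at hi
      simp only [Finset.mem_insert] at hi
      rcases hi with h | h | h | h
      · rw [h]; linarith
      · rw [h]; linarith
      · rw [h]; exact hv3
      · have := hvR i h; linarith
    have heall : ∀ i, |e i x| ≤ 4 * c := by
      intro i
      simp only [he]
      rw [abs_le] at hdre hdim
      split_ifs <;> rw [abs_le] <;> constructor <;>
        linarith [hdre.1, hdre.2, hdim.1, hdim.2]
    intro i hi
    have e1 := abs_lt.mp (hvall i hi)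
    have e2 := abs_le.mp (heall i)
    have e3 : φ i x = 8 * c + v i x := by
      simp only [hv]; rw [← h8c]; ring
    constructor
    · linarith [e1.1]
    · simp only [ht]
      linarith [e1.1, e2.1]
  -- the new point is not the barycenter
  have hB : ∀ x ∈ Y, ∃ i ∈ σ, t i x ≠ 1 / N := by
    intro x hx
    by_contra hcon
    push Not at hcon
    have hrz : rest x = 0 := by
      simp only [hrest]
      refine Finset.sum_eq_zero fun i hi => ?_
      have hiσ : i ∈ σ := by
        rw [hσR]; simp [hi]
      have e1 := hcon i hiσ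
      simp only [ht] at e1
      rw [heR x i hi, add_zero] at e1
      simp only [hv]
      rw [e1, sub_self, abs_zero]
    have hκ1' : κ x = 1 := by
      simp only [hκ]
      rw [hrz]; simp
    have hdx : d x = ψ' x - ψ x := by
      simp only [hd]
      rw [hκ1']; simp
    apply hψ'ne x hx
    apply Complex.ext
    · have e1 := hcon i1 m1
      simp only [ht] at e1
      rw [he1, hdx, Complex.sub_re, hψre] at e1
      simp only [hv] at e1
      rw [Complex.zero_re]
      linarith
    · have e1 := hcon i2 m2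
      simp only [ht] at e1
      rw [he2, hdx, Complex.sub_im, hψim] at e1
      simp only [hv] at e1
      rw [Complex.zero_im]
      linarith
  set mm : X → ℝ := fun x => σ.inf' hne (fun i => t i x) with hmm
  have hmmc : ContinuousOn mm Y := by
    simp only [hmm]
    exact ContinuousOn.finset_inf'_apply hne fun i _ => htc i
  have hmmle : ∀ x, ∀ i ∈ σ, mm x ≤ t i x := fun x i hi => Finset.inf'_le _ hi
  have hmmlt : ∀ x ∈ Y, N * mm x < 1 := by
    intro x hx
    obtain ⟨i, hi, hit⟩ := hB x hx
    by_contra hcon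
    push Not at hcon
    have hge : 1 / N ≤ mm x := by
      rw [div_le_iff₀ hNpos]; linarith
    have hall : ∀ j ∈ σ, 1 / N ≤ t j x := fun j hj => hge.trans (hmmle x j hj)
    have hlt : ∑ j ∈ σ, (1 / N : ℝ) < ∑ j ∈ σ, t j x :=
      Finset.sum_lt_sum hall ⟨i, hi, lt_of_le_of_ne (hall i hi) (Ne.symm hit)⟩
    rw [htsum x hx, Finset.sum_const, nsmul_eq_mul, ← hNdef] at hlt
    have : N * (1 / N) = 1 := by field_simp
    linarith
  have htnn : ∀ x ∈ Y, ∀ i ∈ σ, 0 ≤ t i x := by
    intro x hx i hi
    by_cases hdx : d x = 0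
    · simp only [ht]
      rw [hed0 x hdx i, add_zero]
      exact h0 i x
    · exact (hA x hx hdx i hi).2.le
  -- at points of `Y` with a vanishing coordinate in σ nothing changes
  have hzero : ∀ x ∈ Y, ∀ i ∈ σ, φ i x = 0 → (∀ j, t j x = φ j x) ∧ mm x = 0 := by
    intro x hx i hi hi0
    have hdx : d x = 0 := by
      by_contra hcon
      have := (hA x hx hcon i hi).1
      linarith
    have ht' : ∀ j, t j x = φ j x := by
      intro j
      simp only [ht]
      rw [hed0 x hdx j, add_zero]
    refine ⟨ht', ?_⟩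
    apply le_antisymm
    · have := hmmle x i hi
      rw [ht' i, hi0] at this
      exact this
    · exact Finset.le_inf' hne _ fun j hj => by rw [ht' j]; exact h0 j x
  set A : Fin n → X → ℝ := fun i x => if i ∈ σ then (t i x - mm x) / (1 - N * mm x) else 0 with hAdef
  have hAc : ∀ i, ContinuousOn (A i) Y := by
    intro i
    simp only [hAdef]
    split_ifs
    · refine ContinuousOn.div ((htc i).sub hmmc) (continuousOn_const.sub
        (continuousOn_const.mul hmmc)) ?_
      intro x hx
      have := hmmlt x hx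
      linarith
    · exact continuousOn_const
  have hAeq : ∀ x ∈ Y, (∃ i ∈ σ, φ i x = 0) → ∀ j, A j x = φ j x := by
    rintro x hx ⟨i, hi, hi0⟩ j
    obtain ⟨e1, e2⟩ := hzero x hx i hi hi0
    simp only [hAdef]
    split_ifs with hj
    · rw [e1, e2]; simp
    · exact (hx j hj).symm
  set φ' : Fin n → X → ℝ := fun i x => if x ∈ Y then A i x else φ i x with hφ'
  have hφY : ∀ i, ∀ x ∈ Y, φ' i x = A i x := fun i x hx => by simp only [hφ', if_pos hx]
  have hφnY : ∀ i, ∀ x, x ∉ Y → φ' i x = φ i x := fun i x hx => by simp only [hφ', if_neg hx]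
  have hoff : ∀ x, x ∉ Y → ∃ i ∈ σ, φ i x = 0 := by
    intro x hx
    by_contra hcon
    push Not at hcon
    have hx' : ∃ j, j ∉ σ ∧ φ j x ≠ 0 := by
      by_contra h
      push Not at h
      exact hx h
    obtain ⟨j, hj, hjx⟩ := hx'
    have hsub : insert j σ ⊆ Finset.univ.filter (fun i => φ i x ≠ 0) := by
      intro i hi
      rw [Finset.mem_insert] at hi
      rw [Finset.mem_filter]
      refine ⟨Finset.mem_univ _, ?_⟩
      rcases hi with h | h
      · rw [h]; exact hjx
      · exact hcon i h
    have := (Finset.card_le_card hsub).trans (hmax x)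
    rw [Finset.card_insert_of_notMem hj] at this
    omega
  have hclos : ∀ x ∈ closure (Yᶜ), ∃ i ∈ σ, φ i x = 0 := by
    intro x hx
    have hcl : IsClosed {x | ∏ i ∈ σ, φ i x = 0} :=
      isClosed_eq (continuous_finsetProd _ fun i _ => hφ i) continuous_const
    have hsub : Yᶜ ⊆ {x | ∏ i ∈ σ, φ i x = 0} := by
      intro z hz
      obtain ⟨i, hi, h⟩ := hoff z hz
      exact Finset.prod_eq_zero hi h
    have := (closure_minimal hsub hcl) hx
    exact Finset.prod_eq_zero_iff.mp this
  refine ⟨φ', ?_, ?_, ?_, ?_, ?_⟩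
  · intro i
    have c1 : ContinuousOn (φ' i) Y := (hAc i).congr fun x hx => hφY i x hx
    have c2 : ContinuousOn (φ' i) (closure (Yᶜ)) := by
      refine (hφ i).continuousOn.congr fun x hx => ?_
      by_cases hxY : x ∈ Y
      · rw [hφY i x hxY]
        exact hAeq x hxY (hclos x hx) i
      · exact hφnY i x hxY
    have c3 := c1.union_of_isClosed c2 hYc isClosed_closure
    have hu : Y ∪ closure (Yᶜ) = univ := by
      apply eq_univ_of_forall
      intro x
      by_cases hxY : x ∈ Y
      · exact Or.inl hxY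
      · exact Or.inr (subset_closure hxY)
    rw [hu] at c3
    exact continuousOn_univ.mp c3
  · intro i x
    by_cases hxY : x ∈ Y
    · rw [hφY i x hxY]
      simp only [hAdef]
      split_ifs with hi
      · apply div_nonneg
        · linarith [hmmle x i hi]
        · linarith [hmmlt x hxY]
      · exact le_rfl
    · rw [hφnY i x hxY]; exact h0 i x
  · intro x
    by_cases hxY : x ∈ Y
    · have e1 : ∑ i, φ' i x = ∑ i ∈ σ, (t i x - mm x) / (1 - N * mm x) := by
        have e2 : ∀ i, φ' i x = A i x := fun i => hφY i x hxY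
        simp only [e2, hAdef]
        rw [← Finset.sum_filter]
        congr 1
        ext j; simp
      rw [e1, ← Finset.sum_div, Finset.sum_sub_distrib, htsum x hxY, Finset.sum_const,
        nsmul_eq_mul, ← hNdef]
      apply div_self
      linarith [hmmlt x hxY]
    · have e2 : ∀ i, φ' i x = φ i x := fun i => hφnY i x hxY
      simp only [e2]
      exact h1 x
  · intro i x hi0
    by_cases hxY : x ∈ Y
    · rw [hφY i x hxY]
      by_cases hi : i ∈ σ
      · rw [hAeq x hxY ⟨i, hi, hi0⟩ i]; exact hi0
      · simp only [hAdef, if_neg hi]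
    · rw [hφnY i x hxY]; exact hi0
  · intro x hcon
    by_cases hxY : x ∈ Y
    · obtain ⟨i, hi, hmin⟩ := Finset.exists_mem_eq_inf' hne (fun i => t i x)
      have hmin' : mm x = t i x := hmin
      have : i ∈ Finset.univ.filter (fun i => φ' i x ≠ 0) := by rw [hcon]; exact hi
      rw [Finset.mem_filter] at this
      apply this.2
      rw [hφY i x hxY]
      simp only [hAdef, if_pos hi]
      rw [hmin', sub_self, zero_div]
    · have hx' : ∃ j, j ∉ σ ∧ φ j x ≠ 0 := by
        by_contra h
        push Not at h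
        exact hxY h
      obtain ⟨j, hj, hjx⟩ := hx'
      apply hj
      rw [← hcon, Finset.mem_filter]
      refine ⟨Finset.mem_univ _, ?_⟩
      rw [hφnY j x hxY]
      exact hjx

end Pool.Agent.Helper499.SA
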