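import Pool.Agent.Helper499.SA.Defs
import Pool.Agent.Helper499.SA.A18

set_option autoImplicit false

namespace Pool.Agent.Helper499.SA

open Set Filter Topology

variable {X : Type} [MetricSpace X]




/-- partitions of unity subordinate to `W` of order at most `N` -/
def PUn {n : ℕ} (W : Fin n → Set X) (N : ℕ) (S : Finset (Finset (Fin n))) (K : ℕ) : Prop :=
  ∃ φ : Fin n → X → ℝ, (∀ i, Continuous (φ i)) ∧ (∀ i x, 0 ≤ φ i x) ∧
      (∀ x, ∑ i, φ i x = 1) ∧ (∀ i x, x ∉ W i → φ i x = 0) ∧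
      (∀ x, (Finset.univ.filter (fun i => φ i x ≠ 0)).card ≤ N) ∧
      ∀ σ ∈ S, σ.card = K → ∀ x, Finset.univ.filter (fun i => φ i x ≠ 0) ≠ σ

theorem PUn_step [CompactSpace X]
    (hE : ∀ (C : Set X) (F : X → Circle), IsClosed C → ContinuousOn F C → Ext F C univ)
    {n : ℕ} (W : Fin n → Set X) (N : ℕ) (hN : 3 ≤ N) (h : PUn W N ∅ N)
    (S : Finset (Finset (Fin n))) : PUn W N S N := by
  classical
  induction S using Finset.induction_on with
  | empty => exact h
  | insert σ S _ ih =>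
    by_cases hσ : σ.card = N
    · obtain ⟨φ, h1, h2, h3, h4, h5, h6⟩ := ih
      obtain ⟨φ', g1, g2, g3, g4, g5⟩ := push hE φ h1 h2 h3 σ (by rw [hσ]; exact hN)
        (by rw [hσ]; exact h5)
      have hsub : ∀ x, Finset.univ.filter (fun i => φ' i x ≠ 0) ⊆
          Finset.univ.filter (fun i => φ i x ≠ 0) := by
        intro x i hi
        rw [Finset.mem_filter] at hi ⊢
        exact ⟨hi.1, fun h0 => hi.2 (g4 i x h0)⟩
      refine ⟨φ', g1, g2, g3, fun i x hx => g4 i x (h4 i x hx),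
        fun x => (Finset.card_le_card (hsub x)).trans (h5 x), ?_⟩
      intro τ hτ hτN x
      rw [Finset.mem_insert] at hτ
      rcases hτ with rfl | hτ
      · exact g5 x
      · intro heq
        have h7 : Finset.univ.filter (fun i => φ' i x ≠ 0) =
            Finset.univ.filter (fun i => φ i x ≠ 0) := by
          apply Finset.eq_of_subset_of_card_le (hsub x)
          rw [heq, hτN]
          exact h5 x
        exact h6 τ hτ hτN x (h7 ▸ heq)
    · obtain ⟨φ, h1, h2, h3, h4, h5, h6⟩ := ih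
      refine ⟨φ, h1, h2, h3, h4, h5, ?_⟩
      intro τ hτ hτN x
      rw [Finset.mem_insert] at hτ
      rcases hτ with rfl | hτ
      · exact absurd hτN hσ
      · exact h6 τ hτ hτN x

theorem PUn_down [CompactSpace X]
    (hE : ∀ (C : Set X) (F : X → Circle), IsClosed C → ContinuousOn F C → Ext F C univ)
    {n : ℕ} (W : Fin n → Set X) (N : ℕ) (K L : ℕ) (h : PUn W (2 + N) ∅ K) : PUn W 2 ∅ L := by
  classical
  induction N generalizing K with
  | zero =>
    obtain ⟨φ, h1, h2, h3, h4, h5, _⟩ := h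
    exact ⟨φ, h1, h2, h3, h4, h5, by simp⟩
  | succ N ih =>
    have h0 : PUn W (2 + (N + 1)) ∅ (2 + (N + 1)) := by
      obtain ⟨φ, h1, h2, h3, h4, h5, _⟩ := h
      exact ⟨φ, h1, h2, h3, h4, h5, by simp⟩
    obtain ⟨φ, h1, h2, h3, h4, h5, h6⟩ := PUn_step hE W (2 + (N + 1)) (by omega) h0 Finset.univ
    refine ih 0 ⟨φ, h1, h2, h3, h4, ?_, by simp⟩
    intro x
    have h7 := h5 x
    have h8 : (Finset.univ.filter (fun i => φ i x ≠ 0)).card ≠ 2 + (N + 1) := by
      intro h9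
      exact h6 _ (Finset.mem_univ _) h9 x rfl
    omega

theorem order_two [CompactSpace X]
    (hE : ∀ (C : Set X) (F : X → Circle), IsClosed C → ContinuousOn F C → Ext F C univ)
    {n : ℕ} (W : Fin n → Set X) (hW : ∀ i, IsOpen (W i)) (hcov : ⋃ i, W i = univ) :
    ∃ V : Fin n → Set X, (∀ i, IsOpen (V i)) ∧ (⋃ i, V i = univ) ∧ (∀ i, V i ⊆ W i) ∧
      ∀ x i j k, x ∈ V i → x ∈ V j → x ∈ V k → i = j ∨ i = k ∨ j = k := by
  classical
  obtain ⟨f, hf⟩ := PartitionOfUnity.exists_isSubordinate (isClosed_univ (X := X)) W hW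
    (by rw [hcov])
  have hstart : PUn W (2 + n) ∅ 0 := by
    refine ⟨fun i x => f i x, fun i => (f i).continuous, fun i x => f.nonneg i x, ?_, ?_, ?_,
      by simp⟩
    · intro x
      have := f.sum_eq_one (mem_univ x)
      rwa [finsum_eq_sum_of_fintype] at this
    · intro i x hx
      by_contra h0
      exact hx (hf i (subset_tsupport _ h0))
    · intro x
      refine (Finset.card_filter_le _ _).trans ?_
      rw [Finset.card_univ, Fintype.card_fin]
      omega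
  obtain ⟨φ, h1, _, h3, h4, h5, _⟩ := PUn_down hE W n 0 0 hstart
  refine ⟨fun i => {x | φ i x ≠ 0}, ?_, ?_, ?_, ?_⟩
  · intro i
    exact isOpen_ne_fun (h1 i) continuous_const
  · rw [Set.eq_univ_iff_forall]
    intro x
    by_contra hx
    have h6 : ∀ i, φ i x = 0 := by
      intro i
      by_contra h0
      exact hx (Set.mem_iUnion.2 ⟨i, h0⟩)
    have h7 := h3 x
    rw [Finset.sum_eq_zero (fun i _ => h6 i)] at h7
    exact zero_ne_one h7
  · intro i x hx
    by_contra h0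
    exact hx (h4 i x h0)
  · intro x i j k hi hj hk
    by_contra hcon
    push Not at hcon
    obtain ⟨hij, hik, hjk⟩ := hcon
    have h6 : ({i, j, k} : Finset (Fin n)) ⊆ Finset.univ.filter (fun i => φ i x ≠ 0) := by
      intro l hl
      rw [Finset.mem_insert, Finset.mem_insert, Finset.mem_singleton] at hl
      rw [Finset.mem_filter]
      refine ⟨Finset.mem_univ _, ?_⟩
      rcases hl with rfl | rfl | rfl
      · exact hi
      · exact hj
      · exact hk
    have h7 := (Finset.card_le_card h6).trans (h5 x)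
    rw [Finset.card_eq_three.2 ⟨i, j, k, hij, hik, hjk, rfl⟩] at h7
    omega

theorem dim_nonext [CompactSpace X]
    (hdim : ∃ 𝒰 : Finset (Set X), (∀ U ∈ 𝒰, IsOpen U) ∧ ⋃₀ (𝒰 : Set (Set X)) = Set.univ ∧
        ∀ 𝒱 : Finset (Set X), (∀ V ∈ 𝒱, IsOpen V) → ⋃₀ (𝒱 : Set (Set X)) = Set.univ →
          (∀ V ∈ 𝒱, ∃ U ∈ 𝒰, V ⊆ U) →
          ∃ x : X, ∃ V₁ ∈ 𝒱, ∃ V₂ ∈ 𝒱, ∃ V₃ ∈ 𝒱,
            V₁ ≠ V₂ ∧ V₁ ≠ V₃ ∧ V₂ ≠ V₃ ∧ x ∈ V₁ ∧ x ∈ V₂ ∧ x ∈ V₃) :
    ∃ (C : Set X) (F : X → Circle), IsClosed C ∧ ContinuousOn F C ∧ ¬ Ext F C univ := by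
  classical
  by_contra hno
  have hE : ∀ (C : Set X) (F : X → Circle), IsClosed C → ContinuousOn F C → Ext F C univ := by
    intro C F h1 h2
    by_contra h3
    exact hno ⟨C, F, h1, h2, h3⟩
  obtain ⟨𝒰, hU1, hU2, hU3⟩ := hdim
  obtain ⟨V, hV1, hV2, hV3, hV4⟩ := order_two hE
    (fun i : Fin 𝒰.card => ((𝒰.equivFin.symm i : 𝒰) : Set X))
    (fun i => hU1 _ (𝒰.equivFin.symm i).2) (by
      rw [Set.eq_univ_iff_forall]
      intro x
      have hx : x ∈ ⋃₀ (𝒰 : Set (Set X)) := by rw [hU2]; trivial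
      obtain ⟨U, hU, hxU⟩ := hx
      refine Set.mem_iUnion.2 ⟨𝒰.equivFin ⟨U, hU⟩, ?_⟩
      rw [Equiv.symm_apply_apply]
      exact hxU)
  obtain ⟨x, V₁, m1, V₂, m2, V₃, m3, n12, n13, n23, x1, x2, x3⟩ := hU3 (Finset.univ.image V) (by
      intro A hA
      obtain ⟨i, _, rfl⟩ := Finset.mem_image.1 hA
      exact hV1 i) (by
      rw [Set.eq_univ_iff_forall]
      intro x
      have hx : x ∈ ⋃ i, V i := by rw [hV2]; trivial
      obtain ⟨i, hi⟩ := Set.mem_iUnion.1 hx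
      exact ⟨V i, by
        rw [Finset.mem_coe]
        exact Finset.mem_image_of_mem V (Finset.mem_univ i), hi⟩) (by
      intro A hA
      obtain ⟨i, _, rfl⟩ := Finset.mem_image.1 hA
      exact ⟨_, (𝒰.equivFin.symm i).2, hV3 i⟩)
  obtain ⟨i, _, rfl⟩ := Finset.mem_image.1 m1
  obtain ⟨j, _, rfl⟩ := Finset.mem_image.1 m2
  obtain ⟨k, _, rfl⟩ := Finset.mem_image.1 m3
  rcases hV4 x i j k x1 x2 x3 with h | h | h
  · exact n12 (by rw [h])
  · exact n13 (by rw [h])
  · exact n23 (by rw [h])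

end Pool.Agent.Helper499.SA
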