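import Mathlib

set_option autoImplicit false

namespace Pool.Agent.Helper499.SA

open Set Filter Topology

variable {X : Type} [MetricSpace X]

/-- the circle valued map `F` on `C` extends continuously over `M` -/
def Ext (F : X → Circle) (C M : Set X) : Prop :=
  ∃ G : X → Circle, ContinuousOn G M ∧ Set.EqOn G F C

/-- `M` is a minimal closed set over which the circle valued map `F` on `C` does not extend -/
structure Mem (M C : Set X) (F : X → Circle) : Prop where
  clM : IsClosed M
  clC : IsClosed C
  sub : C ⊆ M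
  cont : ContinuousOn F C
  non : ¬ Ext F C M
  min : ∀ M₁, IsClosed M₁ → C ⊆ M₁ → M₁ ⊆ M → M₁ ≠ M → Ext F C M₁

/-- the complement of `A` is split in two open sides, both accumulating at all of `A` -/
structure Sides (A U V : Set X) : Prop where
  opU : IsOpen U
  opV : IsOpen V
  disj : Disjoint U V
  compl : U ∪ V = Aᶜ
  accU : A ⊆ closure U
  accV : A ⊆ closure V

/-- parametrisation of an arc -/
structure ArcMap (a : ℝ → X) : Prop where
  cont : ContinuousOn a (Icc 0 1)
  inj : InjOn a (Icc 0 1)

/-- small homeomorphisms move points to all nearby points -/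
def Eff (X : Type) [MetricSpace X] : Prop :=
  ∀ ε > 0, ∃ δ > 0, ∀ x y : X, dist x y < δ → ∃ h : X ≃ₜ X, h x = y ∧ ∀ z, dist z (h z) < ε

/-- points at least as close to `R` as to `I` -/
def DD (I R : Set X) : Set X := {x | Metric.infDist x R ≤ Metric.infDist x I}

/-- existence of arbitrarily thin membranes along the initial arc -/
def Thin (a : ℝ → X) (u : ℝ) : Prop :=
  ∀ ε > 0, ∃ (M C : Set X) (F : X → Circle), Mem M C F ∧
    (∀ x ∈ M, Metric.infDist x (a '' Icc 0 u) < ε) ∧ (∀ x ∈ C, dist x (a u) < ε) ∧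
    ∃ w ∈ M, w ∉ C ∧ dist w (a 0) < ε

theorem Sides.symm {A U V : Set X} (h : Sides A U V) : Sides A V U :=
  ⟨h.opV, h.opU, h.disj.symm, by rw [union_comm]; exact h.compl, h.accV, h.accU⟩

theorem Sides.closed {A U V : Set X} (h : Sides A U V) : IsClosed A := by
  rw [← isOpen_compl_iff, ← h.compl]
  exact h.opU.union h.opV

theorem Sides.image {A U V : Set X} (h : Sides A U V) (g : X ≃ₜ X) :
    Sides (g '' A) (g '' U) (g '' V) := by
  refine ⟨g.isOpenMap _ h.opU, g.isOpenMap _ h.opV, ?_, ?_, ?_, ?_⟩
  · exact (Set.disjoint_image_iff g.injective).mpr h.disj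
  · rw [← Set.image_union, h.compl, Set.image_compl_eq g.bijective]
  · rw [← g.image_closure]
    exact Set.image_mono h.accU
  · rw [← g.image_closure]
    exact Set.image_mono h.accV

theorem ArcMap.comp {a : ℝ → X} (h : ArcMap a) (g : X ≃ₜ X) : ArcMap (g ∘ a) :=
  ⟨g.continuous.comp_continuousOn h.cont, fun _ hx _ hy hxy => h.inj hx hy (g.injective hxy)⟩

theorem ArcMap.compact {a : ℝ → X} (h : ArcMap a) {s t : ℝ} (hs : 0 ≤ s) (ht : t ≤ 1) :
    IsCompact (a '' Icc s t) :=
  isCompact_Icc.image_of_continuousOn (h.cont.mono (Icc_subset_Icc hs ht))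

end Pool.Agent.Helper499.SA
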