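import Pool.Agent.Helper499.SA.Defs
import Pool.Agent.Helper499.SA.A01
import Pool.Agent.Helper499.SA.A02
import Pool.Agent.Helper499.SA.A03
import Pool.Agent.Helper499.SA.A04
import Pool.Agent.Helper499.SA.A05
import Pool.Agent.Helper499.SA.A06
import Pool.Agent.Helper499.SA.A07
import Pool.Agent.Helper499.SA.A08
import Pool.Agent.Helper499.SA.A09
import Pool.Agent.Helper499.SA.A10
import Pool.Agent.Helper499.SA.A11
import Pool.Agent.Helper499.SA.A12
import Pool.Agent.Helper499.SA.A13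
import Pool.Agent.Helper499.SA.A14
import Pool.Agent.Helper499.SA.A15
import Pool.Agent.Helper499.SA.A16
import Pool.Agent.Helper499.SA.A17
import Pool.Agent.Helper499.SA.A18
import Pool.Agent.Helper499.SA.A19
import Pool.Agent.Helper499.HC.E02

set_option autoImplicit false

namespace Pool.Agent.Helper499.SA

open Set Filter Topology

theorem eff_of_hom {X : Type} [MetricSpace X] [CompactSpace X]
    (hom : ∀ x y : X, ∃ h : X ≃ₜ X, h x = y) : Eff X :=
  fun ε hε => Pool.Agent.Helper499.HC.effros hom ε hε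

theorem main_arc {X : Type} [MetricSpace X] [CompactSpace X] [ConnectedSpace X]
    [LocallyConnectedSpace X] (hom : ∀ x y : X, ∃ h : X ≃ₜ X, h x = y)
    (hC : ∃ (C : Set X) (F : X → Circle), IsClosed C ∧ ContinuousOn F C ∧ ¬ Ext F C univ)
    (a : ℝ → X) (ha : ArcMap a) : IsPreconnected (a '' Icc 0 1)ᶜ := by
  by_contra hdis
  have hE := eff_of_hom hom
  have hcl : IsClosed (a '' Icc 0 1) := (ha.compact le_rfl le_rfl).isClosed
  obtain ⟨A, U, V, hAS, hne, hS⟩ := exists_sides _ hcl hdis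
  obtain ⟨a₁, ha₁, hA₁, hp₁⟩ := reparam a ha A hAS hS.closed hne
  obtain ⟨C, F, hCcl, hF, hn⟩ := hC
  obtain ⟨M, -, hM⟩ := exists_mem univ C F isClosed_univ hCcl (subset_univ _) hF hn
  obtain ⟨q, hqM, hqC⟩ : ∃ q ∈ M, q ∉ C := by
    by_contra hcon
    push Not at hcon
    exact hM.non ⟨F, hM.cont.mono hcon, fun _ _ => rfl⟩
  obtain ⟨g, hg⟩ := hom (a₁ 0) q
  have ha₂ := ha₁.comp g
  have hS₂ := hS.image g
  have hA₂ : g '' A ⊆ (g ∘ a₁) '' Icc 0 1 := by
    rw [image_comp]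
    exact image_mono hA₁
  have hp₂ : (g ∘ a₁) 0 ∈ g '' A := mem_image_of_mem g hp₁
  have h0 : (g ∘ a₁) 0 = q := hg
  obtain ⟨u, hu0, hu1, hIA, hIM, hIC⟩ := initial_arc hE (g ∘ a₁) ha₂ (g '' A) (g '' U) (g '' V)
    hA₂ hS₂ M C F hM hp₂ (by rw [h0]; exact hqM) (by rw [h0]; exact hqC)
  have hT := thin_membranes hE (g ∘ a₁) ha₂ (g '' A) (g '' U) (g '' V) hA₂ hS₂ M C F hM u hu0 hu1
    hIA (by rw [h0]; exact hqM) hIC
  exact final_false hE (g ∘ a₁) ha₂ (g '' A) (g '' U) (g '' V) hA₂ hS₂ u hu0 hu1 hIA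
    (fun k hk => star hE (g ∘ a₁) ha₂ (g '' A) (g '' U) (g '' V) hA₂ hS₂ u hu0 hu1 hT k hk)

theorem arc_ne_univ {X : Type} [MetricSpace X] [CompactSpace X]
    (hC : ∃ (C : Set X) (F : X → Circle), IsClosed C ∧ ContinuousOn F C ∧ ¬ Ext F C univ)
    (a : ℝ → X) (ha : ArcMap a) : ((a '' Icc 0 1)ᶜ).Nonempty := by
  by_contra hcon
  rw [Set.not_nonempty_iff_eq_empty, Set.compl_empty_iff] at hcon
  obtain ⟨C, F, hCcl, hF, hn⟩ := hC
  apply hn
  obtain ⟨θ, hθ, hθF⟩ := lift_arc a ha C hCcl (by rw [hcon]; exact subset_univ _) F hF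
  obtain ⟨Θ, hΘ⟩ := ContinuousMap.exists_restrict_eq (Y := ℝ) hCcl ⟨C.domRestrict θ, hθ.domRestrict⟩
  refine ⟨fun x => Circle.exp (Θ x), (Circle.exp.continuous.comp Θ.continuous).continuousOn, ?_⟩
  intro x hx
  have h1 : Θ x = θ x := by
    exact DFunLike.congr_fun hΘ ⟨x, hx⟩
  change Circle.exp (Θ x) = F x
  rw [h1, hθF x hx]

theorem main_unit {X : Type} [MetricSpace X] [CompactSpace X] [ConnectedSpace X]
    [LocallyConnectedSpace X] (hom : ∀ x y : X, ∃ h : X ≃ₜ X, h x = y)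
    (hC : ∃ (C : Set X) (F : X → Circle), IsClosed C ∧ ContinuousOn F C ∧ ¬ Ext F C univ)
    (f : unitInterval → X) (hf : Continuous f) (hinj : Function.Injective f) :
    IsConnected (Set.range f)ᶜ := by
  let a : ℝ → X := fun t => f (projIcc 0 1 zero_le_one t)
  have ha : ArcMap a := by
    refine ⟨(hf.comp continuous_projIcc).continuousOn, ?_⟩
    intro s hs t ht hst
    have := hinj hst
    rw [projIcc_of_mem _ hs, projIcc_of_mem _ ht] at this
    exact congrArg Subtype.val this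
  have hr : a '' Icc 0 1 = Set.range f := by
    ext x
    constructor
    · rintro ⟨t, _, rfl⟩
      exact ⟨_, rfl⟩
    · rintro ⟨t, rfl⟩
      refine ⟨t.1, t.2, ?_⟩
      change f (projIcc 0 1 zero_le_one t.1) = f t
      rw [projIcc_of_mem _ t.2]
  rw [← hr]
  exact ⟨arc_ne_univ hC a ha, main_arc hom hC a ha⟩

end Pool.Agent.Helper499.SA
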